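import Pool.Agent.MP_f6b137_pr.H74.Base

/-! Comparison of the sign changes on a grid with the block model. -/

namespace Pool.Agent.MP_f6b137_pr.H74

open MeasureTheory ProbabilityTheory Filter Topology Polynomial
open scoped Real RealInnerProductSpace

noncomputable section

variable {D : ℕ}

def nrm (x : ES D) : ES D := ‖x‖⁻¹ • x

lemma norm_nrm {x : ES D} (hx : x ≠ 0) : ‖nrm x‖ = 1 := norm_smul_inv_norm hx

lemma nrm_sub {x y : ES D} (hx : x ≠ 0) (hy : 1 / 2 ≤ ‖y‖) : ‖nrm x - nrm y‖ ≤ 4 * ‖x - y‖ := by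
  have h1 := norm_pos_iff.2 hx
  have h2 : 0 < ‖y‖ := by linarith
  have e : nrm x - nrm y = ‖y‖⁻¹ • (x - y) + (‖x‖⁻¹ - ‖y‖⁻¹) • x := by unfold nrm; module
  have h3 : ‖y‖⁻¹ ≤ 2 := by rw [inv_le_comm₀ h2 (by norm_num)]; linarith
  have h4 : |‖x‖⁻¹ - ‖y‖⁻¹| * ‖x‖ = ‖y‖⁻¹ * |‖x‖ - ‖y‖| := by
    have : ‖x‖⁻¹ - ‖y‖⁻¹ = -(‖x‖⁻¹ * ‖y‖⁻¹) * (‖x‖ - ‖y‖) := by field_simp; ring
    rw [this, abs_mul, abs_neg, abs_of_pos (by positivity)]
    field_simp
  rw [e]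
  refine (norm_add_le _ _).trans ?_
  rw [norm_smul, norm_smul, Real.norm_eq_abs, Real.norm_eq_abs, h4, abs_of_pos (inv_pos.2 h2)]
  have h5 := abs_norm_sub_norm_le x y
  have h6 := mul_le_mul h3 h5 (abs_nonneg _) (by norm_num)
  have h7 := mul_le_mul_of_nonneg_right h3 (norm_nonneg (x - y))
  linarith

lemma DB2.smul {ι : Type} {J : Finset ι} {a b : ι → ES D} {C : ℝ} (h : DB2 J a b C)
    (x y : ι → ℝ) : DB2 J (fun j => x j • a j) (fun j => y j • b j) C := by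
  intro α β
  simpa only [smul_smul] using h (fun j => α j * x j) fun j => β j * y j

lemma DB2.mono {ι : Type} {J : Finset ι} {a b : ι → ES D} {C C' : ℝ} (h : DB2 J a b C)
    (hC : C ≤ C') : DB2 J a b C' :=
  fun α β => (h α β).trans (mul_le_mul_of_nonneg_right hC (by positivity))

lemma WH.pairs {K : ℝ → ES D} {N : ℕ} {κ A : ℝ} (h : WH K N κ A) (l : ℕ) {S : Finset ℕ}
    (hS : S ⊆ Finset.Ico 1 (N - 1)) :
    DB3 (S ×ˢ Finset.range (2 ^ l)) (fun x => K (x.1 + x.2 / 2 ^ l))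
      (fun x => K (x.1 + (x.2 + 1 / 2) / 2 ^ l)) (fun x => K (x.1 + (x.2 + 1) / 2 ^ l))
      (A * 2 ^ l) := by
  have hM : (0 : ℝ) < 2 ^ l := by positivity
  have := h.db (ℕ × ℕ) (S ×ˢ Finset.range (2 ^ l)) Prod.fst
    (fun x => x.1 + (x.2 + 1 / 2) / 2 ^ l) (fun _ => 1 / 2 / 2 ^ l) (2 ^ l) (fun x hx => ?_) fun j => ?_
  · have e1 : ∀ x : ℕ × ℕ, (x.1 : ℝ) + (x.2 + 1 / 2) / 2 ^ l - 1 / 2 / 2 ^ l = x.1 + x.2 / 2 ^ l :=
      fun x => by ring
    have e2 : ∀ x : ℕ × ℕ, (x.1 : ℝ) + (x.2 + 1 / 2) / 2 ^ l + 1 / 2 / 2 ^ l =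
      x.1 + (x.2 + 1) / 2 ^ l := fun x => by ring
    simp only [e1, e2] at this
    exact_mod_cast this
  · obtain ⟨h1, h2⟩ := Finset.mem_product.1 hx
    have h3 := Finset.mem_Ico.1 (hS h1)
    have h4 : (x.2 : ℝ) + 1 ≤ 2 ^ l := by exact_mod_cast Finset.mem_range.1 h2
    have h5 : ((x.2 : ℝ) + 1) / 2 ^ l ≤ 1 := (div_le_one hM).2 h4
    have h6 : (0 : ℝ) ≤ x.2 / 2 ^ l := by positivity
    refine ⟨h3.1, by omega, by positivity, ?_, ?_⟩
    · have : ((x.2 : ℝ) + 1 / 2) / 2 ^ l - 1 / 2 / 2 ^ l = x.2 / 2 ^ l := by ring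
      linarith
    · have : ((x.2 : ℝ) + 1 / 2) / 2 ^ l + 1 / 2 / 2 ^ l = (x.2 + 1) / 2 ^ l := by ring
      linarith
  · refine (Finset.card_le_card_of_injOn Prod.snd (t := Finset.range (2 ^ l)) (fun x hx => ?_)
      fun x hx y hy hxy => ?_).trans (by simp)
    · exact (Finset.mem_product.1 (Finset.mem_filter.1 hx).1).2
    · exact Prod.ext ((Finset.mem_filter.1 hx).2.trans (Finset.mem_filter.1 hy).2.symm) hxy

lemma DB3.outer {ι : Type} {J : Finset ι} {a b c : ι → ES D} {C : ℝ} (h : DB3 J a b c C) :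
    DB2 J a c C := by
  intro α β
  simpa using h α 0 β

/-- discarded cells on the polynomial side -/
lemma term1 (hBV : RowBV) {K : ℝ → ES D} {N : ℕ} {κ A : ℝ} (hA : 0 ≤ A) (h : WH K N κ A) (l : ℕ)
    {S : Finset ℕ} (hS : S ⊆ Finset.Ico 1 (N - 1)) :
    Var[fun W => ∑ j ∈ S, ∑ k ∈ Finset.range (2 ^ l),
      sc (K (j + k / 2 ^ l)) (K (j + (k + 1) / 2 ^ l)) W; gam D] ≤ A * (2 ^ l) ^ 2 * S.card := by
  have := hBV D _ _ _ _ _ _ 0 0 1 (by positivity) (fun j _ => ⟨h.ne _, h.ne _, h.ne _⟩) (h.pairs l hS)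
  simp only [zero_mul, zero_add, one_mul, Finset.sum_product] at this
  refine this.trans ?_
  have h2 : ∑ j ∈ S, ∑ k ∈ Finset.range (2 ^ l),
      Var[fun W => sc (K (j + k / 2 ^ l)) (K (j + (k + 1) / 2 ^ l)) W; gam D] ≤ S.card * 2 ^ l := by
    refine (Finset.sum_le_sum fun j _ => Finset.sum_le_sum fun k _ => var_sc_le _ _).trans ?_
    simp
  refine (mul_le_mul_of_nonneg_left h2 (by positivity)).trans (le_of_eq ?_)
  ring

/-- sign changes of the model in cell `j` -/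
def Yc (e : ℕ → ES D) (B l j : ℕ) (W : ES D) : ℝ :=
  ∑ k ∈ Finset.range (2 ^ l), sc (Vb e B (j / B) ((j % B : ℕ) + k / 2 ^ l))
    (Vb e B (j / B) ((j % B : ℕ) + (k + 1) / 2 ^ l)) W

lemma memLp_Yc (e : ℕ → ES D) (B l : ℕ) (S : Finset ℕ) :
    MemLp (fun W => ∑ j ∈ S, Yc e B l j W) 2 (gam D) :=
  memLp_finsetSum _ fun _ _ => memLp_finsetSum _ fun _ _ => memLp_sc _ _

/-- discarded cells on the model side -/
lemma term3 (hI : RowIND) {e : ℕ → ES D} {B m : ℕ} (hB : 0 < B) (he : ONf e (m * B)) (l : ℕ)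
    {S : Finset ℕ} (hS : S ⊆ Finset.range (m * B)) :
    Var[fun W => ∑ j ∈ S, Yc e B l j W; gam D] ≤ (2 ^ l) ^ 2 * B * S.card := by
  have hmap : ∀ j ∈ S, j / B ∈ Finset.range m := fun j hj =>
    Finset.mem_range.2 ((Nat.div_lt_iff_lt_mul hB).2 (Finset.mem_range.1 (hS hj)))
  obtain ⟨g, hg0⟩ : ∃ g : ℕ → (Fin B → ℝ) → ℝ, ∀ b ξ, g b ξ = ∑ j ∈ S.filter fun j => j / B = b,
      ∑ k ∈ Finset.range (2 ^ l),
        chg (Ym ξ ((j % B : ℕ) + k / 2 ^ l)) (Ym ξ ((j % B : ℕ) + (k + 1) / 2 ^ l)) :=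
    ⟨_, fun _ _ => rfl⟩
  have hg : ∀ b, Measurable (g b) := fun b => by
    rw [_root_.funext (hg0 b)]
    exact Finset.measurable_sum _ fun _ _ =>
      Finset.measurable_sum _ fun _ _ => measurable_chg (measurable_Ym _ _) (measurable_Ym _ _)
  have hb : ∀ b ξ, |g b ξ| ≤ (S.filter fun j => j / B = b).card * 2 ^ l := by
    intro b ξ
    rw [hg0, abs_of_nonneg (Finset.sum_nonneg fun _ _ => Finset.sum_nonneg fun _ _ => chg_nonneg _ _)]
    refine (Finset.sum_le_sum fun _ _ => Finset.sum_le_sum fun _ _ => chg_le_one _ _).trans ?_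
    simp
  have e1 : (fun W => ∑ j ∈ S, Yc e B l j W) = ∑ b : Fin m, (g b) ∘ blk e B b := by
    funext W
    rw [Finset.sum_apply, ← Finset.sum_fiberwise_of_maps_to hmap]
    simp only [Function.comp]
    rw [Fin.sum_univ_eq_sum_range (fun b => g b (blk e B b W))]
    refine Finset.sum_congr rfl fun b _ => ?_
    rw [hg0]
    refine Finset.sum_congr rfl fun j hj => ?_
    simp only [Yc, Ym_blk, sc, (Finset.mem_filter.1 hj).2]
  have hind := (hI D B m e he).1.comp (fun b : Fin m => g b) fun b => hg b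
  have hm : ∀ b : ℕ, Measurable (g b ∘ blk e B b) := fun b => (hg b).comp (measurable_blk _ _ _)
  have hL : ∀ b : ℕ, MemLp (g b ∘ blk e B b) 2 (gam D) :=
    fun b => memLp_bdd (hm b) _ fun W => hb b (blk e B b W)
  rw [e1, IndepFun.variance_sum (X := fun b : Fin m => g b ∘ blk e B b) (fun b _ => hL b)
    fun i _ j _ hij => hind.indepFun hij]
  have h1 : ∀ b : ℕ, Var[g b ∘ blk e B b; gam D] ≤
      (2 ^ l) ^ 2 * B * (S.filter fun j => j / B = b).card := by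
    intro b
    have h2 := var_le_of_bad (P := gam D) (hm b) _ 0 le_rfl Set.univ (fun W => hb b (blk e B b W))
      fun x hx => absurd trivial hx
    have h3 : (S.filter fun j => j / B = b).card ≤ B := by
      refine (Finset.card_le_card_of_injOn (· % B) (t := Finset.range B) (fun x _ => ?_)
        fun x hx y hy hxy => ?_).trans (by simp)
      · exact Finset.mem_range.2 (Nat.mod_lt _ hB)
      · have a1 := (Finset.mem_filter.1 hx).2
        have a2 := (Finset.mem_filter.1 hy).2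
        rw [← Nat.div_add_mod x B, ← Nat.div_add_mod y B, a1, a2]
        exact congrArg _ hxy
    have h4 : ((S.filter fun j => j / B = b).card : ℝ) ≤ B := by exact_mod_cast h3
    simp only [probReal_univ, mul_one, zero_add] at h2
    refine h2.trans ?_
    have h5 : (0 : ℝ) ≤ (S.filter fun j => j / B = b).card := Nat.cast_nonneg _
    nlinarith [mul_le_mul_of_nonneg_left h4 (mul_nonneg (sq_nonneg ((2 : ℝ) ^ l)) h5)]
  refine (Finset.sum_le_sum fun (b : Fin m) _ => h1 b).trans (le_of_eq ?_)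
  rw [← Finset.mul_sum, Fin.sum_univ_eq_sum_range
    (fun b => ((S.filter fun j => j / B = b).card : ℝ)), Finset.card_eq_sum_card_fiberwise hmap]
  push_cast; rfl

/-- interior cells of the blocks -/
def Ic (R B m : ℕ) : Finset ℕ := (Finset.range (m * B)).filter fun j => R ≤ j % B ∧ j % B + R < B

lemma sum_Ic {R B : ℕ} (hB : 0 < B) (m : ℕ) (F : ℕ → ℕ → ℝ) :
    ∑ b ∈ Finset.range m, ∑ j ∈ Finset.Ico R (B - R), F b j = ∑ j ∈ Ic R B m, F (j / B) (j % B) := by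
  rw [← Finset.sum_product']
  refine Finset.sum_nbij' (fun x => x.1 * B + x.2) (fun j => (j / B, j % B)) ?_ ?_ ?_ ?_ ?_
  · intro x hx
    obtain ⟨h1, h2⟩ := Finset.mem_product.1 hx
    have h1 := Finset.mem_range.1 h1
    have h2 := Finset.mem_Ico.1 h2
    have h3 : (x.1 * B + x.2) % B = x.2 := by
      rw [Nat.mul_add_mod_self_right, Nat.mod_eq_of_lt (by omega)]
    have h4 : (x.1 + 1) * B ≤ m * B := Nat.mul_le_mul_right _ h1
    refine Finset.mem_filter.2 ⟨Finset.mem_range.2 ?_, ?_⟩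
    · rw [add_mul] at h4; omega
    · rw [h3]; omega
  · intro j hj
    obtain ⟨h1, h2⟩ := Finset.mem_filter.1 hj
    exact Finset.mem_product.2 ⟨Finset.mem_range.2
      ((Nat.div_lt_iff_lt_mul hB).2 (Finset.mem_range.1 h1)), Finset.mem_Ico.2 ⟨h2.1, by omega⟩⟩
  · intro x hx
    have h2 := Finset.mem_Ico.1 (Finset.mem_product.1 hx).2
    have h3 : x.2 < B := by omega
    refine Prod.ext ?_ ?_
    · simp only
      rw [add_comm, Nat.add_mul_div_right _ _ hB, Nat.div_eq_of_lt h3, zero_add]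
    · simp only
      rw [Nat.mul_add_mod_self_right, Nat.mod_eq_of_lt h3]
  · intro j _
    exact Nat.div_add_mod' j B
  · intro x hx
    have h2 := Finset.mem_Ico.1 (Finset.mem_product.1 hx).2
    have h3 : x.2 < B := by omega
    rw [Nat.mul_add_mod_self_right, Nat.mod_eq_of_lt h3, add_comm, Nat.add_mul_div_right _ _ hB,
      Nat.div_eq_of_lt h3, zero_add]

lemma card_Ic {R B : ℕ} (hB : 0 < B) (m : ℕ) : (m : ℝ) * B ≤ (Ic R B m).card + 2 * R * m := by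
  have h := sum_Ic (R := R) hB m fun _ _ => 1
  simp only [Finset.sum_const, Finset.card_range, Nat.card_Ico, nsmul_eq_mul, mul_one] at h
  rw [← h]
  have h1 : (B : ℝ) ≤ (B - R - R : ℕ) + 2 * R := by exact_mod_cast (by omega : B ≤ B - R - R + 2 * R)
  nlinarith [mul_le_mul_of_nonneg_left h1 (Nat.cast_nonneg (α := ℝ) m)]

theorem rowSTEPB : OfSTEPB := by
  intro hBV hCMP hI hWH hCH hCO hMO μ C₀ s p hD hp hac hac' l ε hε
  obtain ⟨κ, A, N₀, -, hA, hW⟩ := hWH μ C₀ s p hD hp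
  obtain ⟨ell, hell⟩ := hCH
  obtain ⟨R₁, Cm, hCm, hdb⟩ := hMO.db l
  set M : ℝ := 2 ^ l with hM
  have hM0 : 0 < M := by positivity
  set C₁ : ℝ := A * M + Cm with hC₁
  have hC0 : 0 ≤ C₁ := by positivity
  obtain ⟨K, hK, hcmp⟩ := hCMP (ε / (80 * (C₁ + 1) * M)) (by positivity)
  set η : ℝ := ε / (5120 * (C₁ + 1) * (K + 1) * M) with hη
  have hη0 : 0 < η := by positivity
  set δ : ℝ := ε / (40 * (A + 1) * M ^ 2) with hδ
  have hδ0 : 0 < δ := by positivity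
  refine ⟨max (max R₁ 1) ⌈4 / η⌉₊, fun R hR => ⟨max 1 ⌈4 * R / δ⌉₊, fun B hB => ?_⟩⟩
  have hR1 : R₁ ≤ R := ((le_max_left _ _).trans (le_max_left _ _)).trans hR
  have hR2 : (1 : ℝ) ≤ R := by exact_mod_cast ((le_max_right _ _).trans (le_max_left _ _)).trans hR
  have hR3 : 4 / (R : ℝ) ≤ η := by
    have := Nat.ceil_le.1 ((le_max_right _ _).trans hR)
    rw [div_le_iff₀ hη0] at this
    rw [div_le_iff₀ (by linarith)]; linarith
  have hB0 : 0 < B := (le_max_left _ _).trans hB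
  have hB1 : (0 : ℝ) < B := by exact_mod_cast hB0
  have hB2 : 4 * (R : ℝ) ≤ B * δ := by
    have := Nat.ceil_le.1 ((le_max_right _ _).trans hB)
    rwa [div_le_iff₀ hδ0] at this
  obtain ⟨Jn, hJ1, hJ2⟩ : ∃ Jn : ℕ, 1 ≤ Jn ∧ 9 * (B : ℝ) / (Jn : ℝ) ^ 2 ≤ η := by
    refine ⟨max 1 ⌈9 * B / η⌉₊, le_max_left _ _, ?_⟩
    have h1 : (1 : ℝ) ≤ (max 1 ⌈9 * B / η⌉₊ : ℕ) := by exact_mod_cast le_max_left _ _
    have h2 := Nat.ceil_le.1 (le_max_right 1 ⌈9 * B / η⌉₊)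
    rw [div_le_iff₀ hη0] at h2
    rw [div_le_iff₀ (by positivity)]
    nlinarith [mul_le_mul_of_nonneg_left h1 (by positivity : 0 ≤ ((max 1 ⌈9 * B / η⌉₊ : ℕ) : ℝ) * η)]
  have hJ3 : (0 : ℝ) < Jn := by exact_mod_cast hJ1
  set ε₁ : ℝ := min η (min δ (ε / (20 * M ^ 2 * B))) with hε₁
  have hε0 : 0 < ε₁ := by positivity
  have hε1 : ε₁ ≤ η := min_le_left _ _
  have hε2 : ε₁ ≤ δ := (min_le_right _ _).trans (min_le_left _ _)
  have hε3 : ε₁ ≤ ε / (20 * M ^ 2 * B) := (min_le_right _ _).trans (min_le_right _ _)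
  obtain ⟨d, hd⟩ := hCO μ C₀ s p ell hD hp hac hac' hell ε₁ hε0
  refine ⟨d, ?_⟩
  filter_upwards [hd, eventually_ge_atTop (2 * d + N₀ + 1),
    tendsto_natCast_atTop_atTop.eventually (eventually_ge_atTop (((B : ℝ) + 2 * Jn) / ε₁))]
    with n hn hn1 hn2 N hN
  obtain ⟨D, φ, e, Bad, hφ, he, hBad, hgood⟩ := hn N hN
  refine ⟨D, φ, e, hφ, he, ?_⟩
  rw [div_le_iff₀ hε0] at hn2
  have hWH := hW N n D φ (by omega) ⟨by omega, by omega⟩ hφ
  set Kf := Kt p n N φ with hKf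
  set m := N / B with hm
  have hmB : m * B ≤ N := Nat.div_mul_le_self _ _
  have hmB2 : N < m * B + B := Nat.lt_div_mul_add hB0
  have he' : ONf e (m * B) := he.mono hmB
  have hn0 : (0 : ℝ) ≤ n := Nat.cast_nonneg _
  have hN2 : (N : ℝ) ≤ 2 * n := by exact_mod_cast (by omega : N ≤ 2 * n)
  set G := (Ic R B m).filter fun j => j ∉ Bad ∧ Jn ≤ j ∧ j + 1 + Jn ≤ N with hG
  have hG1 : G ⊆ Ic R B m := Finset.filter_subset _ _
  have hG2 : G ⊆ Finset.Ico 1 (N - 1) := fun j hj => by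
    have := (Finset.mem_filter.1 hj).2
    exact Finset.mem_Ico.2 ⟨by omega, by omega⟩
  have hI1 : Ic R B m ⊆ Finset.range (m * B) := Finset.filter_subset _ _
  have c1 : (((Ic R B m) \ G).card : ℝ) ≤ ε₁ * n + 2 * Jn := by
    have h1 : (Ic R B m) \ G ⊆ Bad ∪ (Finset.range Jn ∪ Finset.Ico (N - Jn) N) := by
      intro j hj
      obtain ⟨h1, h2⟩ := Finset.mem_sdiff.1 hj
      have h3 := Finset.mem_range.1 (hI1 h1)
      simp only [Finset.mem_union, Finset.mem_range, Finset.mem_Ico]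
      by_contra h4
      push Not at h4
      exact h2 (Finset.mem_filter.2 ⟨h1, h4.1, h4.2.1, by omega⟩)
    have h2 := (Finset.card_le_card h1).trans ((Finset.card_union_le _ _).trans
      (Nat.add_le_add_left (Finset.card_union_le _ _) _))
    simp only [Finset.card_range, Nat.card_Ico] at h2
    have h3 : (((Ic R B m) \ G).card : ℝ) ≤ Bad.card + 2 * Jn := by
      exact_mod_cast (by omega : ((Ic R B m) \ G).card ≤ Bad.card + 2 * Jn)
    linarith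
  have c2 : ((Finset.Ico 1 (N - 1) \ G).card : ℝ) ≤ 4 * δ * n := by
    have h1 := Finset.card_sdiff_add_card_eq_card hG1
    have h2 := Finset.card_sdiff_add_card_eq_card hG2
    rw [Nat.card_Ico] at h2
    have h3 : ((Finset.Ico 1 (N - 1) \ G).card : ℝ) + (Ic R B m).card ≤
        m * B + B + ((Ic R B m) \ G).card := by
      exact_mod_cast (by omega : (Finset.Ico 1 (N - 1) \ G).card + (Ic R B m).card ≤
        m * B + B + ((Ic R B m) \ G).card)
    have h4 := card_Ic (R := R) hB0 m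
    have h5 : (m : ℝ) * B ≤ N := by exact_mod_cast hmB
    have h6 : 2 * (R : ℝ) * m ≤ δ * n := by
      nlinarith [mul_le_mul_of_nonneg_right hB2 (Nat.cast_nonneg (α := ℝ) m),
        mul_le_mul_of_nonneg_right (h5.trans hN2) hδ0.le]
    nlinarith [mul_le_mul_of_nonneg_right hε2 hn0, mul_nonneg hδ0.le hn0]
  have c3 : ((G ×ˢ Finset.range (2 ^ l)).card : ℝ) ≤ 2 * n * M := by
    rw [Finset.card_product, Finset.card_range]
    have h1 : G.card ≤ N := (Finset.card_le_card hG2).trans (by rw [Nat.card_Ico]; omega)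
    have h2 : (G.card : ℝ) ≤ 2 * n := le_trans (by exact_mod_cast h1) hN2
    push_cast
    exact mul_le_mul_of_nonneg_right h2 hM0.le
  have t1 := term1 hBV hA hWH l (Finset.sdiff_subset (s := Finset.Ico 1 (N - 1)) (t := G))
  have t3 := term3 hI hB0 he' l ((Finset.sdiff_subset (t := G)).trans hI1)
  have hc : ∀ j : ℕ, ∃ c : ℝ → ℝ, j ∈ G →
      (∀ t ∈ Set.Icc (j : ℝ) (j + 1), ∀ t' ∈ Set.Icc (j : ℝ) (j + 1), 0 < c t * c t') ∧
      ∀ t ∈ Set.Icc (j : ℝ) (j + 1), ‖c t • Kf t - Vt ell e N t‖ ^ 2 ≤ ε₁ := by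
    intro j
    by_cases hj : j ∈ G
    · have h1 := (Finset.mem_filter.1 hj).2
      obtain ⟨c, h2⟩ := hgood j (by omega) h1.1
      exact ⟨c, fun _ => h2⟩
    · exact ⟨0, fun h => absurd h hj⟩
  choose c hc using hc
  have hpt : ∀ j ∈ G, ∀ τ : ℝ, 0 ≤ τ → τ ≤ 1 → c j (j + τ) • Kf (j + τ) ≠ 0 ∧
      1 / 2 ≤ ‖Vb e B (j / B) ((j % B : ℕ) + τ)‖ ∧
      ‖nrm (c j (j + τ) • Kf (j + τ)) - nrm (Vb e B (j / B) ((j % B : ℕ) + τ))‖ ^ 2 ≤ 96 * η := by
    intro j hj τ h0 h1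
    obtain ⟨a1, -, a2, a3⟩ := Finset.mem_filter.1 hj
    obtain ⟨a4, a5, a6⟩ := Finset.mem_filter.1 a1
    have a7 : (j / B + 1) * B ≤ m * B :=
      Nat.mul_le_mul_right _ ((Nat.div_lt_iff_lt_mul hB0).2 (Finset.mem_range.1 a4))
    have ht : (j : ℝ) + τ ∈ Set.Icc (j : ℝ) (j + 1) := ⟨by linarith, by linarith⟩
    have b1 : c j (j + τ) ≠ 0 := fun h => by simpa [h] using (hc j hj).1 _ ht _ ht
    have b2 := smul_ne_zero b1 (hWH.ne (j + τ))
    have e1 : ((j / B : ℕ) : ℝ) * B + (j % B : ℕ) = j := by exact_mod_cast Nat.div_add_mod' j B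
    have r1 : (R : ℝ) ≤ (j % B : ℕ) := by exact_mod_cast a5
    have r2 : ((j % B : ℕ) : ℝ) + R + 1 ≤ B := by exact_mod_cast a6
    have r3 : (Jn : ℝ) ≤ j := by exact_mod_cast a2
    have r4 : (j : ℝ) + 1 + Jn ≤ N := by exact_mod_cast a3
    have b3 := hMO.low D B (j / B) e ((j % B : ℕ) + τ) (he'.mono a7) hB0 (by linarith) (by linarith)
    have b4 := hMO.near ell D N B (j / B) e (j + τ) R Jn hell he (a7.trans hmB) hR2 hJ3
      (by linarith) (by linarith) (by linarith) (by linarith)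
    rw [show (j : ℝ) + τ - (j / B : ℕ) * B = (j % B : ℕ) + τ by linarith] at b4
    refine ⟨b2, b3, ?_⟩
    have b5 := (hc j hj).2 _ ht
    have b6 := (nrm_sub b2 b3).trans (mul_le_mul_of_nonneg_left
      (norm_sub_le_norm_sub_add_norm_sub _ (Vt ell e N (j + τ)) _) (by norm_num))
    refine (pow_le_pow_left₀ (norm_nonneg _) b6 2).trans ?_
    nlinarith [sq_nonneg (‖c j (j + τ) • Kf (j + τ) - Vt ell e N (j + τ)‖ -
      ‖Vt ell e N (j + τ) - Vb e B (j / B) ((j % B : ℕ) + τ)‖)]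
  have hτ : ∀ k ∈ Finset.range (2 ^ l), (0 ≤ (k : ℝ) / M ∧ (k : ℝ) / M ≤ 1) ∧
      (0 ≤ ((k : ℝ) + 1) / M ∧ ((k : ℝ) + 1) / M ≤ 1) := by
    intro k hk
    have h4 : (k : ℝ) + 1 ≤ M := by rw [hM]; exact_mod_cast Finset.mem_range.1 hk
    exact ⟨⟨by positivity, (div_le_one hM0).2 (by linarith)⟩, by positivity, (div_le_one hM0).2 h4⟩
  have hp1 := fun (x : ℕ × ℕ) (hx : x ∈ G ×ˢ Finset.range (2 ^ l)) =>
    hpt x.1 (Finset.mem_product.1 hx).1 _ (hτ _ (Finset.mem_product.1 hx).2).1.1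
      (hτ _ (Finset.mem_product.1 hx).2).1.2
  have hp2 := fun (x : ℕ × ℕ) (hx : x ∈ G ×ˢ Finset.range (2 ^ l)) =>
    hpt x.1 (Finset.mem_product.1 hx).1 _ (hτ _ (Finset.mem_product.1 hx).2).2.1
      (hτ _ (Finset.mem_product.1 hx).2).2.2
  have hpos : ∀ {y : ES D}, 1 / 2 ≤ ‖y‖ → 0 < ‖y‖ := fun h => by linarith
  have t2 := hcmp D _ (G ×ˢ Finset.range (2 ^ l))
    (fun x => nrm (c x.1 (x.1 + x.2 / M) • Kf (x.1 + x.2 / M)))
    (fun x => nrm (c x.1 (x.1 + (x.2 + 1) / M) • Kf (x.1 + (x.2 + 1) / M)))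
    (fun x => nrm (Vb e B (x.1 / B) ((x.1 % B : ℕ) + x.2 / M)))
    (fun x => nrm (Vb e B (x.1 / B) ((x.1 % B : ℕ) + (x.2 + 1) / M))) C₁ hC0
    (fun x hx => ⟨norm_nrm (hp1 x hx).1, norm_nrm (hp2 x hx).1,
      norm_nrm (norm_pos_iff.1 (hpos (hp1 x hx).2.1)), norm_nrm (norm_pos_iff.1 (hpos (hp2 x hx).2.1))⟩)
    ((((hWH.pairs l hG2).outer.smul _ _).smul _ _).mono (by linarith))
    (((hdb R D B m e _ hR1 he' fun x hx => by
      obtain ⟨h1, h2⟩ := Finset.mem_product.1 hx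
      obtain ⟨h3, h4⟩ := Finset.mem_filter.1 (hG1 h1)
      exact ⟨Finset.mem_range.1 h3, h4.1, h4.2, Finset.mem_range.1 h2⟩).smul _ _).mono
      (by linarith [mul_nonneg hA hM0.le]))
  have e2 : ∀ W, ∑ x ∈ G ×ˢ Finset.range (2 ^ l),
      (sc (nrm (c x.1 (x.1 + x.2 / M) • Kf (x.1 + x.2 / M)))
        (nrm (c x.1 (x.1 + (x.2 + 1) / M) • Kf (x.1 + (x.2 + 1) / M))) W -
      sc (nrm (Vb e B (x.1 / B) ((x.1 % B : ℕ) + x.2 / M)))
        (nrm (Vb e B (x.1 / B) ((x.1 % B : ℕ) + (x.2 + 1) / M))) W) =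
      ∑ j ∈ G, ∑ k ∈ Finset.range (2 ^ l), sc (Kf (j + k / M)) (Kf (j + (k + 1) / M)) W -
        ∑ j ∈ G, Yc e B l j W := by
    intro W
    unfold Yc
    rw [← Finset.sum_product', ← Finset.sum_product', ← Finset.sum_sub_distrib]
    refine Finset.sum_congr rfl fun x hx => ?_
    obtain ⟨h1, h2⟩ := Finset.mem_product.1 hx
    have h3 := hτ _ h2
    unfold nrm
    rw [sc_smul (mul_pos (inv_pos.2 (norm_pos_iff.2 (hp1 x hx).1))
        (inv_pos.2 (norm_pos_iff.2 (hp2 x hx).1))),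
      sc_smul (mul_pos (inv_pos.2 (hpos (hp1 x hx).2.1)) (inv_pos.2 (hpos (hp2 x hx).2.1))),
      sc_smul ((hc _ h1).1 _ ⟨by linarith [h3.1.1], by linarith [h3.1.2]⟩ _
        ⟨by linarith [h3.2.1], by linarith [h3.2.2]⟩)]
  simp only [e2] at t2
  have s2 : ∑ x ∈ G ×ˢ Finset.range (2 ^ l),
      (‖nrm (c x.1 (x.1 + x.2 / M) • Kf (x.1 + x.2 / M)) -
        nrm (Vb e B (x.1 / B) ((x.1 % B : ℕ) + x.2 / M))‖ ^ 2 +
      ‖nrm (c x.1 (x.1 + (x.2 + 1) / M) • Kf (x.1 + (x.2 + 1) / M)) -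
        nrm (Vb e B (x.1 / B) ((x.1 % B : ℕ) + (x.2 + 1) / M))‖ ^ 2) ≤ 2 * n * M * (192 * η) := by
    refine (Finset.sum_le_card_nsmul _ _ (192 * η) fun x hx => by
      linarith [(hp1 x hx).2.2, (hp2 x hx).2.2]).trans ?_
    rw [nsmul_eq_mul]
    exact mul_le_mul_of_nonneg_right c3 (by positivity)
  have v1 : A * M ^ 2 * ((Finset.Ico 1 (N - 1) \ G).card : ℝ) ≤ ε * n / 10 := by
    refine (mul_le_mul (mul_le_mul_of_nonneg_right (by linarith : A ≤ A + 1) (by positivity)) c2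
      (by positivity) (by positivity)).trans (le_of_eq ?_)
    rw [hδ]; field_simp; ring
  have v3 : M ^ 2 * B * (((Ic R B m) \ G).card : ℝ) ≤ ε * n / 10 := by
    have h1 : (((Ic R B m) \ G).card : ℝ) ≤ 2 * (ε / (20 * M ^ 2 * B)) * n := by
      nlinarith [mul_le_mul_of_nonneg_right hε3 hn0]
    refine (mul_le_mul_of_nonneg_left h1 (by positivity)).trans (le_of_eq ?_)
    field_simp; ring
  have v2 := t2.trans (show _ ≤ ε * n / 10 from by
    have h1 := add_le_add (mul_le_mul_of_nonneg_left c3 (by positivity : 0 ≤ ε / (80 * (C₁ + 1) * M)))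
      (mul_le_mul (by linarith : K ≤ K + 1) s2 (by positivity) (by positivity))
    refine (mul_le_mul (by linarith : C₁ ≤ C₁ + 1) h1 (by positivity) (by positivity)).trans
      (le_of_eq ?_)
    rw [hη]; field_simp; ring)
  have mX : ∀ S : Finset ℕ, MemLp (fun W => ∑ j ∈ S, ∑ k ∈ Finset.range (2 ^ l),
      sc (Kf (j + k / M)) (Kf (j + (k + 1) / M)) W) 2 (gam D) :=
    fun S => memLp_finsetSum _ fun _ _ => memLp_finsetSum _ fun _ _ => memLp_sc _ _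
  have e3 : (fun W => Sl Kf N l W - ∑ b ∈ Finset.range m, Gm l R B (blk e B b W)) = fun W =>
      (∑ j ∈ Finset.Ico 1 (N - 1) \ G, ∑ k ∈ Finset.range (2 ^ l),
        sc (Kf (j + k / M)) (Kf (j + (k + 1) / M)) W +
      (∑ j ∈ G, ∑ k ∈ Finset.range (2 ^ l), sc (Kf (j + k / M)) (Kf (j + (k + 1) / M)) W -
        ∑ j ∈ G, Yc e B l j W)) - ∑ j ∈ Ic R B m \ G, Yc e B l j W := by
    funext W
    have h1 : ∑ b ∈ Finset.range m, Gm l R B (blk e B b W) = ∑ j ∈ Ic R B m, Yc e B l j W := by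
      simp only [Gm_blk]
      exact sum_Ic hB0 m fun b j => ∑ k ∈ Finset.range (2 ^ l),
        sc (Vb e B b (j + k / 2 ^ l)) (Vb e B b (j + (k + 1) / 2 ^ l)) W
    rw [h1, Sl, ← Finset.sum_sdiff hG1, ← Finset.sum_sdiff hG2]
    ring
  rw [e3]
  have m2 : MemLp (fun W => ∑ j ∈ G, ∑ k ∈ Finset.range (2 ^ l),
      sc (Kf (j + k / M)) (Kf (j + (k + 1) / M)) W - ∑ j ∈ G, Yc e B l j W) 2 (gam D) :=
    (mX G).sub (memLp_Yc e B l G)
  have f1 := var_add_le (mX (Finset.Ico 1 (N - 1) \ G)) m2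
  refine (var_sub_le ((mX _).add m2) (memLp_Yc e B l _)).trans ?_
  have g1 := t1.trans v1
  have g3 := t3.trans v3
  have f2 : Var[(fun W => ∑ j ∈ Finset.Ico 1 (N - 1) \ G, ∑ k ∈ Finset.range (2 ^ l),
      sc (Kf (j + k / M)) (Kf (j + (k + 1) / M)) W) + fun W =>
      ∑ j ∈ G, ∑ k ∈ Finset.range (2 ^ l), sc (Kf (j + k / M)) (Kf (j + (k + 1) / M)) W -
        ∑ j ∈ G, Yc e B l j W; gam D] ≤ _ := f1
  linarith

end

end Pool.Agent.MP_f6b137_pr.H74
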