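import Pool.Agent.MP_f6b137_pr.H74.CMP
import Pool.Agent.MP_f6b137_pr.H74.STEPB
import Pool.Agent.MP_f6b137_pr.H16.STEPA
import Pool.Agent.MP_f6b137_pr.H16.CORE
import Pool.Agent.MP_f6b137_pr.H50.COUP0
import Pool.Agent.MP_f6b137_pr.H96.IND
import Pool.Agent.MP_f6b137_pr.H45.PEAK
import Pool.Agent.MP_f6b137_pr.H63.MZ
import Pool.Agent.MP_f6b137_pr.H5.DENS
import Pool.Agent.MP_f6b137_pr.H10.MOD
import Pool.Agent.MP_f6b137_pr.H70.OUT
import Pool.Agent.MP_f6b137_pr.H4.WH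
import Pool.Agent.MP_f6b137_pr.H80.THIN
import Pool.Agent.MP_f6b137_pr.H6.OUT0
import Pool.Agent.MP_f6b137_pr.H56.SB
import Pool.Agent.MP_f6b137_pr.H88.MIS
import Pool.Agent.MP_f6b137_pr.H22.SINC
import Pool.Agent.MP_f6b137_pr.H26.COUP
import Pool.Agent.MP_f6b137_pr.H38.POS
import Pool.Agent.MP_f6b137_pr.H94.RED
import Pool.Agent.MP_f6b137_pr.H82.TEL
import Pool.Agent.MP_f6b137_pr.H47.CHEB

/-! Assembly. -/

namespace Pool.Agent.MP_f6b137_pr.H74

open MeasureTheory ProbabilityTheory Filter Topology Polynomial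

theorem core : RowCORE :=
  have hWH : RowWH := H4.rowWH H63.rowMZ H45.rowPEAK
  have hMOD : RowMOD := H10.rowMOD H22.rowSINC
  H16.rowCORE H96.rowIND
    (H38.rowPOS H96.rowIND (H80.rowTHIN H56.rowSB H96.rowIND) H22.rowSINC hMOD)
    (H16.rowSTEPA hWH (H82.rowTEL rowBV H56.rowSB) (rowMIS H56.rowSB)
      (H70.rowOUT H56.rowSB H63.rowMZ H6.rowOUT0))
    (rowSTEPB rowBV rowCMP H96.rowIND hWH (H47CHEB.rowCHEB H22.rowSINC)
      (H26Coup.rowCOUP H63.rowMZ H5.rowDENS H50.rowCOUP0) hMOD)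

theorem final : ∃ c : ℝ, 0 < c ∧ ∀ (ν : Measure ℝ) (α β : ℝ), α < β → IsFiniteMeasure ν →
    ν ≪ volume → ν ((Set.Icc α β)ᶜ) = 0 → volume.restrict (Set.Icc α β) ≪ ν →
    (∃ L : NNReal, ∀ x ∈ Set.Icc α β, ∀ r : ℝ, 0 < r →
      ν (Metric.ball x (2 * r)) ≤ L * ν (Metric.ball x r)) →
    ∀ p : ℕ → Polynomial ℝ, (∀ k, (p k).natDegree = k) →
      (∀ j k, ∫ x, (p j).eval x * (p k).eval x ∂ν = if j = k then (1 : ℝ) else 0) →
    ∀ (Ω : Type) [MeasurableSpace Ω] (P : Measure Ω) [IsProbabilityMeasure P]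
      (a : ℕ → Ω → ℝ), (∀ k, P.map (a k) = gaussianReal 0 1) → iIndepFun a P →
    ∀ N : ℕ → Ω → ℝ, (∀ n ω, N n ω =
      (((∑ k ∈ Finset.range (n + 1), Polynomial.C (a k ω) * p k).roots.toFinset.card : ℕ) : ℝ)) →
    (∀ n, AEMeasurable (N n) P) ∧
    Tendsto (fun n : ℕ => variance (N n) P / (n : ℝ)) atTop (𝓝 c) ∧
    Tendsto (fun n : ℕ => variance (N n) P) atTop atTop ∧
    TendstoInDistribution (fun n ω => (N n ω - ∫ ω', N n ω' ∂P) / √(variance (N n) P)) atTop id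
      (fun _ => P) (gaussianReal 0 1) := by
  obtain ⟨c, hc, h⟩ := core
  refine ⟨c, hc, ?_⟩
  rintro ν α β h1 h2 h3 h4 h5 ⟨L, h6⟩ p h7 h8 Ω _ P _ a hlaw hind N hN
  obtain ⟨μ, C₀, s, p', a1, a2, a3, a4, a5⟩ := H94.rowRED ν α β L p h1 h2 h3 h4 h5 h6 h7 h8
  obtain ⟨b1, b2⟩ := h μ C₀ s p' a1 a2 a3 a4
  have e0 : cnt p' = cnt p := funext fun n => funext fun x => a5 n x
  rw [e0] at b1 b2
  have ha : ∀ k, AEMeasurable (a k) P := fun k =>
    AEMeasurable.of_map_ne_zero (by rw [hlaw]; exact IsProbabilityMeasure.ne_zero _)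
  let ξ : ∀ n : ℕ, Ω → Fin (n + 1) → ℝ := fun n ω k => a k ω
  have hξ : ∀ n, AEMeasurable (ξ n) P := fun n => aemeasurable_pi_lambda _ fun k => ha k
  have hl : ∀ n, P.map (ξ n) = piG (n + 1) := fun n => by
    have := (iIndepFun_iff_map_fun_eq_pi_map (fun k => ha _)).1
      (hind.precomp (g := fun k : Fin (n + 1) => (k : ℕ)) Fin.val_injective)
    simpa only [hlaw] using this
  have e1 : ∀ n, N n = cnt p n ∘ ξ n := fun n => funext fun ω => by
    simp only [hN, cnt, ξ, Function.comp]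
    rw [Fin.sum_univ_eq_sum_range (fun k => Polynomial.C (a k ω) * p k)]
  have m1 : ∀ n, AEMeasurable (N n) P := fun n => by
    rw [e1]; exact (measurable_cnt p n).comp_aemeasurable (hξ n)
  have e2 : ∀ n, variance (N n) P = variance (cnt p n) (piG (n + 1)) := fun n => by
    rw [e1, ← hl, variance_map (measurable_cnt p n).aemeasurable (hξ n)]
  have e3 : ∀ n, ∫ ω, N n ω ∂P = ∫ y, cnt p n y ∂piG (n + 1) := fun n => by
    rw [e1, ← hl, integral_map (hξ n) (measurable_cnt p n).aestronglyMeasurable]; rfl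
  simp only [e2, e3]
  refine ⟨m1, b1, ?_, fun n => ((m1 n).sub_const _).div_const _, by fun_prop, ?_⟩
  · refine (b1.pos_mul_atTop hc tendsto_natCast_atTop_atTop).congr' ?_
    filter_upwards [eventually_gt_atTop 0] with n hn
    exact div_mul_cancel₀ _ (Nat.cast_ne_zero.2 hn.ne')
  · refine ProbabilityMeasure.tendsto_iff_tendsto_charFun.2 fun t => ?_
    have e4 : ∀ n, P.map (fun ω => (N n ω - ∫ y, cnt p n y ∂piG (n + 1)) /
        √(variance (cnt p n) (piG (n + 1)))) = (piG (n + 1)).map fun x =>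
        (cnt p n x - ∫ y, cnt p n y ∂piG (n + 1)) / √(variance (cnt p n) (piG (n + 1))) := by
      intro n
      have hm : Measurable fun x => (cnt p n x - ∫ y, cnt p n y ∂piG (n + 1)) /
        √(variance (cnt p n) (piG (n + 1))) := ((measurable_cnt p n).sub_const _).div_const _
      have := AEMeasurable.map_map_of_aemeasurable (μ := P) (hm.aemeasurable) (hξ n)
      rw [hl] at this
      rw [this, e1]; rfl
    simpa [e4, charFun_gaussianReal, neg_div] using b2 t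

end Pool.Agent.MP_f6b137_pr.H74
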