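import Pool.Agent.MP_f6b137_pr.H74.Fock

/-! Variance inequalities for sums of sign change indicators. -/

namespace Pool.Agent.MP_f6b137_pr.H74

open MeasureTheory ProbabilityTheory Filter Topology Polynomial
open scoped Real RealInnerProductSpace

noncomputable section

variable {D : ℕ}

/-- sine polynomials -/
def SinP : Submodule ℝ (ℝ → ℝ) := Submodule.span ℝ (Set.range fun (a : ℝ) (x : ℝ) => Real.sin (a * x))

/-- cosine polynomials with frequencies in `V` -/
def CosP (V : Submodule ℝ (ES D)) : Submodule ℝ (ES D → ℝ) :=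
  Submodule.span ℝ (Set.range fun (v : V) (W : ES D) => Real.cos ⟪(v : ES D), W⟫)

lemma mem_congr {X : Type*} {S : Submodule ℝ (X → ℝ)} {f g : X → ℝ} (hf : f ∈ S)
    (h : ∀ x, f x = g x) : g ∈ S := (_root_.funext h : f = g) ▸ hf

lemma sin_mem (a : ℝ) : (fun x => Real.sin (a * x)) ∈ SinP := Submodule.subset_span ⟨a, rfl⟩

lemma cos_mem {V : Submodule ℝ (ES D)} {v : ES D} (hv : v ∈ V) :
    (fun W => Real.cos ⟪v, W⟫) ∈ CosP V := Submodule.subset_span ⟨⟨v, hv⟩, rfl⟩

lemma SinP.cont {f : ℝ → ℝ} (hf : f ∈ SinP) : Continuous f ∧ ∃ M, ∀ x, |f x| ≤ M := by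
  induction hf using Submodule.span_induction with
  | mem x h => obtain ⟨a, rfl⟩ := h; exact ⟨by fun_prop, 1, fun _ => Real.abs_sin_le_one _⟩
  | zero => exact ⟨continuous_zero, 0, by simp⟩
  | add x y _ _ hx hy =>
    obtain ⟨h1, M, hM⟩ := hx
    obtain ⟨h2, M', hM'⟩ := hy
    exact ⟨h1.add h2, M + M', fun t => (abs_add_le _ _).trans (add_le_add (hM t) (hM' t))⟩
  | smul a x _ hx =>
    obtain ⟨h1, M, hM⟩ := hx
    refine ⟨h1.const_smul a, |a| * M, fun t => ?_⟩
    simp only [Pi.smul_apply, smul_eq_mul, abs_mul]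
    exact mul_le_mul_of_nonneg_left (hM t) (abs_nonneg _)

lemma CosP.memLp {V : Submodule ℝ (ES D)} {f : ES D → ℝ} (hf : f ∈ CosP V) :
    MemLp f 2 (gam D) := by
  induction hf using Submodule.span_induction with
  | mem x h => obtain ⟨a, rfl⟩ := h; exact memLp_cos _
  | zero => exact MemLp.zero
  | add x y _ _ hx hy => exact hx.add hy
  | smul a x _ hx => exact hx.const_smul a

lemma sinsq_mem (η : ℝ) {f : ℝ → ℝ} (hf : f ∈ SinP) :
    (fun x => Real.sin (η * x) ^ 2 * f x) ∈ SinP := by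
  induction hf using Submodule.span_induction with
  | mem x h =>
    obtain ⟨a, rfl⟩ := h
    have e : (fun x => Real.sin (η * x) ^ 2 * Real.sin (a * x)) =
        (1 / 2 : ℝ) • (fun x => Real.sin (a * x)) - (1 / 4 : ℝ) • (fun x => Real.sin ((a + 2 * η) * x))
          - (1 / 4 : ℝ) • fun x => Real.sin ((a - 2 * η) * x) := by
      funext x
      simp only [Pi.sub_apply, Pi.smul_apply, smul_eq_mul, add_mul, sub_mul, mul_assoc, Real.sin_add,
        Real.sin_sub, Real.cos_two_mul, Real.cos_sq']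
      ring
    rw [e]
    exact sub_mem (sub_mem (Submodule.smul_mem _ _ (sin_mem _)) (Submodule.smul_mem _ _ (sin_mem _)))
      (Submodule.smul_mem _ _ (sin_mem _))
  | zero => exact mem_congr SinP.zero_mem fun t => by simp
  | add x y _ _ hx hy => exact mem_congr (add_mem hx hy) fun t => by simp [mul_add]
  | smul a x _ hx =>
    have := SinP.smul_mem a hx
    refine mem_congr this fun t => ?_
    simp only [Pi.smul_apply, smul_eq_mul]; ring

lemma odd_mem (η : ℝ) (q : ℝ[X]) :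
    (fun x => q.eval (Real.sin (η * x)) - q.eval (-Real.sin (η * x))) ∈ SinP := by
  have hodd : ∀ k : ℕ, (fun x => Real.sin (η * x) ^ (2 * k + 1)) ∈ SinP := by
    intro k
    induction k with
    | zero => simpa using sin_mem η
    | succ k ih =>
      have := sinsq_mem η ih
      refine mem_congr this fun t => ?_
      ring
  induction q using Polynomial.induction_on' with
  | add p q hp hq =>
    have := add_mem hp hq
    refine mem_congr this fun t => ?_
    simp only [Pi.add_apply, eval_add]; ring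
  | monomial k a =>
    rcases Nat.even_or_odd' k with ⟨j, rfl | rfl⟩
    · have := SinP.zero_mem
      refine mem_congr this fun t => ?_
      simp [eval_monomial, pow_mul]
    · have := SinP.smul_mem (2 * a) (hodd j)
      refine mem_congr this fun t => ?_
      simp only [Pi.smul_apply, smul_eq_mul, eval_monomial, pow_succ, pow_mul]
      ring

lemma measurable_sign : Measurable Real.sign :=
  Measurable.ite measurableSet_Iio measurable_const
    (Measurable.ite measurableSet_Ioi measurable_const measurable_const)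

lemma abs_sign_le (x : ℝ) : |Real.sign x| ≤ 1 := by
  rcases Real.sign_apply_eq x with h | h | h <;> simp [h]

/-- truncation to `[-1, 1]` -/
def clamp (x : ℝ) : ℝ := max (-1) (min 1 x)

lemma abs_clamp_le (x : ℝ) : |clamp x| ≤ 1 :=
  abs_le.2 ⟨le_max_left _ _, max_le (by norm_num) (min_le_left _ _)⟩

lemma clamp_neg (x : ℝ) : clamp (-x) = -clamp x := by
  unfold clamp
  rcases le_total x 1 with h | h <;> rcases le_total x (-1) with h' | h' <;>
    simp only [max_def, min_def] <;> split_ifs <;> linarith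

lemma clamp_lim (x : ℝ) : ∀ᶠ n : ℕ in atTop, clamp (n ^ 2 * Real.sin ((n : ℝ)⁻¹ * x)) = Real.sign x := by
  have key : ∀ x : ℝ, 0 < x → ∀ᶠ n : ℕ in atTop, clamp (n ^ 2 * Real.sin ((n : ℝ)⁻¹ * x)) = 1 := by
    intro x hx
    filter_upwards [tendsto_natCast_atTop_atTop.eventually (eventually_ge_atTop (max x (2 / x)))]
      with n hn
    have h1 : x ≤ n := (le_max_left _ _).trans hn
    have h2 : 2 / x ≤ n := (le_max_right _ _).trans hn
    have h0 : (0 : ℝ) < n := hx.trans_le h1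
    have h3 : (n : ℝ)⁻¹ * x ≤ 1 := by rw [inv_mul_le_iff₀ h0]; linarith
    have h4 := Real.mul_le_sin (x := (n : ℝ)⁻¹ * x) (by positivity) (by linarith [Real.pi_gt_three])
    have h5 : 1 / 2 ≤ 2 / π := by
      rw [div_le_div_iff₀ (by norm_num) Real.pi_pos]; linarith [Real.pi_lt_four]
    have h6 : 1 ≤ (n : ℝ) ^ 2 * Real.sin ((n : ℝ)⁻¹ * x) := by
      rw [div_le_iff₀ hx] at h2
      calc (1 : ℝ) ≤ n ^ 2 * (1 / 2 * ((n : ℝ)⁻¹ * x)) := by field_simp; linarith
        _ ≤ _ := by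
          gcongr
          exact le_trans (by gcongr) h4
    unfold clamp
    rw [min_eq_left h6]; norm_num
  rcases lt_trichotomy x 0 with h | rfl | h
  · filter_upwards [key (-x) (by linarith)] with n hn
    rw [mul_neg, Real.sin_neg, mul_neg, clamp_neg] at hn
    rw [Real.sign_of_neg h]; linarith
  · simp [clamp]
  · rw [Real.sign_of_pos h]; exact key x h

lemma exists_T (ε : ℝ) (hε : 0 < ε) : ∃ f ∈ SinP, (∀ x, |f x| ≤ 2) ∧
    ∫ x, (Real.sign x - f x) ^ 2 ∂gaussianReal 0 1 ≤ ε := by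
  have hc : Continuous clamp := by unfold clamp; fun_prop
  have hb : ∀ (n : ℕ) x, |Real.sign x - clamp (n ^ 2 * Real.sin ((n : ℝ)⁻¹ * x))| ≤ 2 := fun n x =>
    (abs_sub _ _).trans (by linarith [abs_sign_le x, abs_clamp_le (n ^ 2 * Real.sin ((n : ℝ)⁻¹ * x))])
  have hm : ∀ n : ℕ, Measurable fun x => Real.sign x - clamp (n ^ 2 * Real.sin ((n : ℝ)⁻¹ * x)) :=
    fun n => measurable_sign.sub (Continuous.measurable (by fun_prop))
  have h1 := tendsto_integral_of_dominated_convergence (μ := gaussianReal 0 1)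
    (F := fun (n : ℕ) x => (Real.sign x - clamp (n ^ 2 * Real.sin ((n : ℝ)⁻¹ * x))) ^ 2)
    (f := fun _ => 0) (fun _ => 4) (fun n => ((hm n).pow_const 2).aestronglyMeasurable)
    (integrable_const _) (fun n => Eventually.of_forall fun x => by
      rw [Real.norm_eq_abs, abs_pow]
      exact (pow_le_pow_left₀ (abs_nonneg _) (hb n x) 2).trans (by norm_num))
    (Eventually.of_forall fun x => tendsto_const_nhds.congr' (by
      filter_upwards [clamp_lim x] with n hn
      rw [hn]; simp))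
  rw [integral_zero] at h1
  obtain ⟨n, hn⟩ := (h1.eventually (gt_mem_nhds (show 0 < ε / 4 by positivity))).exists
  obtain ⟨q, hq⟩ := exists_polynomial_near_of_continuousOn (-1) 1 (fun y => clamp (n ^ 2 * y))
    (Continuous.continuousOn (by fun_prop)) (min 1 (ε / 4)) (by positivity)
  set f : ℝ → ℝ := (1 / 2 : ℝ) • fun x => q.eval (Real.sin ((n : ℝ)⁻¹ * x)) -
    q.eval (-Real.sin ((n : ℝ)⁻¹ * x)) with hf
  have hfm : f ∈ SinP := SinP.smul_mem _ (odd_mem _ q)
  have hd : ∀ x, |f x - clamp (n ^ 2 * Real.sin ((n : ℝ)⁻¹ * x))| ≤ min 1 (ε / 4) := by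
    intro x
    have a1 := hq _ ⟨Real.neg_one_le_sin ((n : ℝ)⁻¹ * x), Real.sin_le_one _⟩
    have a2 := hq (-Real.sin ((n : ℝ)⁻¹ * x))
      ⟨by linarith [Real.sin_le_one ((n : ℝ)⁻¹ * x)], by linarith [Real.neg_one_le_sin ((n : ℝ)⁻¹ * x)]⟩
    simp only [mul_neg, clamp_neg] at a2
    simp only [hf, Pi.smul_apply, smul_eq_mul]
    rw [abs_lt] at a1 a2
    rw [abs_le]
    constructor <;> linarith [a1.1, a1.2, a2.1, a2.2]
  have hf2 : ∀ x, |f x| ≤ 2 := fun x => by
    have := abs_add_le (f x - clamp (n ^ 2 * Real.sin ((n : ℝ)⁻¹ * x)))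
      (clamp (n ^ 2 * Real.sin ((n : ℝ)⁻¹ * x)))
    rw [sub_add_cancel] at this
    linarith [hd x, min_le_left 1 (ε / 4), abs_clamp_le (n ^ 2 * Real.sin ((n : ℝ)⁻¹ * x))]
  refine ⟨f, hfm, hf2, ?_⟩
  have i1 := (memLp_bdd (P := gaussianReal 0 1) (hm n) 2 (hb n)).integrable_sq
  have i2 := (memLp_bdd (P := gaussianReal 0 1) (f := fun x => Real.sign x - f x)
    (measurable_sign.sub (SinP.cont hfm).1.measurable) 3
    fun x => (abs_sub _ _).trans (by linarith [abs_sign_le x, hf2 x])).integrable_sq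
  refine (integral_mono i2 ((i1.const_mul 2).add (integrable_const (ε / 2))) fun x => ?_).trans ?_
  · simp only [Pi.add_apply]
    have a1 := pow_le_pow_left₀ (abs_nonneg _) (hd x) 2
    rw [sq_abs] at a1
    have a2 : min 1 (ε / 4) ^ 2 ≤ ε / 4 := by
      rw [sq]
      exact (mul_le_mul (min_le_left _ _) (min_le_right _ _) (by positivity) zero_le_one).trans
        (by linarith)
    nlinarith [sq_nonneg (Real.sign x + f x - 2 * clamp (n ^ 2 * Real.sin ((n : ℝ)⁻¹ * x)))]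
  · simp only [Pi.add_apply]
    rw [integral_add (i1.const_mul 2) (integrable_const _), integral_const_mul]
    simp only [integral_const, probReal_univ, smul_eq_mul, one_mul]
    linarith

lemma prod_mem {V : Submodule ℝ (ES D)} {u v : ES D} (hu : u ∈ V) (hv : v ∈ V) {f g : ℝ → ℝ}
    (hf : f ∈ SinP) (hg : g ∈ SinP) : (fun W => f ⟪u, W⟫ * g ⟪v, W⟫) ∈ CosP V := by
  induction hf, hg using Submodule.span_induction₂ with
  | mem_mem x y hx hy =>
    obtain ⟨a, rfl⟩ := hx
    obtain ⟨b, rfl⟩ := hy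
    have := (CosP V).smul_mem (1 / 2 : ℝ) (sub_mem
      (cos_mem (sub_mem (V.smul_mem a hu) (V.smul_mem b hv)))
      (cos_mem (add_mem (V.smul_mem a hu) (V.smul_mem b hv))))
    refine mem_congr this fun W => ?_
    simp only [Pi.smul_apply, Pi.sub_apply, smul_eq_mul, inner_sub_left, inner_add_left,
      real_inner_smul_left, Real.cos_sub, Real.cos_add]
    ring
  | zero_left y hy => exact mem_congr (CosP V).zero_mem fun t => by simp
  | zero_right y hy => exact mem_congr (CosP V).zero_mem fun t => by simp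
  | add_left x y z _ _ _ h1 h2 => exact mem_congr (add_mem h1 h2) fun t => by simp [add_mul]
  | add_right x y z _ _ _ h1 h2 => exact mem_congr (add_mem h1 h2) fun t => by simp [mul_add]
  | smul_left r x y _ _ h1 =>
    have := (CosP V).smul_mem r h1
    refine mem_congr this fun W => ?_
    simp only [Pi.smul_apply, smul_eq_mul]; ring
  | smul_right r x y _ _ h1 =>
    have := (CosP V).smul_mem r h1
    refine mem_congr this fun W => ?_
    simp only [Pi.smul_apply, smul_eq_mul]; ring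

/-- the trigonometric substitute of the sign change indicator -/
def Tf (f : ℝ → ℝ) (u v W : ES D) : ℝ := (1 - f ⟪u, W⟫ * f ⟪v, W⟫) / 2

lemma Tf_mem {V : Submodule ℝ (ES D)} {u v : ES D} (hu : u ∈ V) (hv : v ∈ V) {f : ℝ → ℝ}
    (hf : f ∈ SinP) : Tf f u v ∈ CosP V := by
  have := (CosP V).smul_mem (1 / 2 : ℝ) (sub_mem (cos_mem V.zero_mem) (prod_mem hu hv hf hf))
  refine mem_congr this fun W => ?_
  simp only [Pi.smul_apply, Pi.sub_apply, smul_eq_mul, Tf, inner_zero_left, Real.cos_zero]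
  ring

lemma map_unit {u : ES D} (hu : ‖u‖ = 1) : (gam D).map (fun W => ⟪u, W⟫) = gaussianReal 0 1 := by
  rw [map_inner, hu]; simp

lemma ae_ne {u : ES D} (hu : ‖u‖ = 1) : ∀ᵐ W ∂gam D, ⟪u, W⟫ ≠ (0 : ℝ) := by
  have h : ∀ᵐ x ∂gaussianReal 0 1, x ≠ 0 := by
    have := noAtoms_gaussianReal (μ := 0) (v := 1) one_ne_zero
    exact (Set.countable_singleton (0 : ℝ)).ae_notMem _
  rw [← map_unit hu] at h
  exact ae_of_ae_map (measurable_inner' u).aemeasurable h

lemma chg_eq {x y : ℝ} (hx : x ≠ 0) (hy : y ≠ 0) : chg x y = (1 - Real.sign x * Real.sign y) / 2 := by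
  unfold chg
  rcases hx.lt_or_gt with h1 | h1 <;> rcases hy.lt_or_gt with h2 | h2
  · rw [if_neg (mul_pos_of_neg_of_neg h1 h2).not_gt, Real.sign_of_neg h1, Real.sign_of_neg h2]; norm_num
  · rw [if_pos (mul_neg_of_neg_of_pos h1 h2), Real.sign_of_neg h1, Real.sign_of_pos h2]; norm_num
  · rw [if_pos (mul_neg_of_pos_of_neg h1 h2), Real.sign_of_pos h1, Real.sign_of_neg h2]; norm_num
  · rw [if_neg (mul_pos h1 h2).not_gt, Real.sign_of_pos h1, Real.sign_of_pos h2]; norm_num

lemma var_sc_Tf {f : ℝ → ℝ} (hf : f ∈ SinP) (h2 : ∀ x, |f x| ≤ 2) {ε : ℝ}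
    (hε : ∫ x, (Real.sign x - f x) ^ 2 ∂gaussianReal 0 1 ≤ ε) {u v : ES D} (hu : ‖u‖ = 1)
    (hv : ‖v‖ = 1) : Var[fun W => sc u v W - Tf f u v W; gam D] ≤ 3 * ε := by
  have hL : MemLp (fun W => sc u v W - Tf f u v W) 2 (gam D) :=
    (memLp_sc u v).sub (CosP.memLp (Tf_mem (V := ⊤) trivial trivial hf))
  have hm : Measurable fun x => Real.sign x - f x := measurable_sign.sub (SinP.cont hf).1.measurable
  have hi : ∀ w : ES D, Integrable (fun W => (Real.sign ⟪w, W⟫ - f ⟪w, W⟫) ^ 2) (gam D) := fun w =>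
    (memLp_bdd (hm.comp (measurable_inner' w)) 3 fun W =>
      (abs_sub _ _).trans (by linarith [abs_sign_le ⟪w, W⟫, h2 ⟪w, W⟫])).integrable_sq
  have he : ∀ w : ES D, ‖w‖ = 1 → ∫ W, (Real.sign ⟪w, W⟫ - f ⟪w, W⟫) ^ 2 ∂gam D ≤ ε := by
    intro w hw
    rw [← map_unit hw, integral_map (measurable_inner' w).aemeasurable
      (hm.pow_const 2).aestronglyMeasurable] at hε
    exact hε
  have h0 : 0 ≤ ε := (integral_nonneg fun _ => sq_nonneg _).trans hε
  refine (variance_le_expectation_sq hL.1).trans ?_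
  refine (integral_mono_ae hL.integrable_sq (((hi v).const_mul (1 / 2)).add ((hi u).const_mul 2))
    ?_).trans ?_
  · filter_upwards [ae_ne hu, ae_ne hv] with W h1 h3
    simp only [Pi.add_apply, Pi.pow_apply, sc, Tf, chg_eq h1 h3]
    have a1 := (sq_le_one_iff_abs_le_one _).2 (abs_sign_le ⟪u, W⟫)
    have a2 := pow_le_pow_left₀ (abs_nonneg _) (h2 ⟪v, W⟫) 2
    rw [sq_abs] at a2
    generalize Real.sign ⟪u, W⟫ = s at *
    generalize Real.sign ⟪v, W⟫ = s' at *
    generalize f ⟪u, W⟫ = g at *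
    generalize f ⟪v, W⟫ = g' at *
    have e : (1 - s * s') / 2 - (1 - g * g') / 2 = -(s * (s' - g') + g' * (s - g)) / 2 := by ring
    rw [e]
    nlinarith [sq_nonneg (s * (s' - g') - g' * (s - g)), mul_le_mul_of_nonneg_right a1 (sq_nonneg (s' - g')),
      mul_le_mul_of_nonneg_right a2 (sq_nonneg (s - g))]
  · simp only [Pi.add_apply]
    rw [integral_add ((hi v).const_mul _) ((hi u).const_mul _), integral_const_mul, integral_const_mul]
    linarith [he u hu, he v hv]

/-- limits of cosine polynomials -/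
def Lim (V : Submodule ℝ (ES D)) (F : ES D → ℝ) : Prop :=
  MemLp F 2 (gam D) ∧ ∀ η : ℝ, 0 < η → ∃ f ∈ CosP V, √(Var[fun W => F W - f W; gam D]) ≤ η

lemma Lim.of_mem {V : Submodule ℝ (ES D)} {f : ES D → ℝ} (hf : f ∈ CosP V) : Lim V f :=
  ⟨CosP.memLp hf, fun η hη => ⟨f, hf, by simpa [variance_eq_integral] using hη.le⟩⟩

lemma Lim.add {V : Submodule ℝ (ES D)} {F G : ES D → ℝ} (hF : Lim V F) (hG : Lim V G) :
    Lim V fun W => F W + G W := by
  refine ⟨hF.1.add hG.1, fun η hη => ?_⟩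
  obtain ⟨f, hf, h1⟩ := hF.2 (η / 2) (by positivity)
  obtain ⟨g, hg, h2⟩ := hG.2 (η / 2) (by positivity)
  refine ⟨f + g, add_mem hf hg, ?_⟩
  have := sd_add_le (P := gam D) (f := fun W => F W - f W) (g := fun W => G W - g W)
    (hF.1.sub (CosP.memLp hf)) (hG.1.sub (CosP.memLp hg))
  have e : (fun W => F W + G W - (f + g) W) = fun W => F W - f W + (G W - g W) := by
    funext W; simp only [Pi.add_apply]; ring
  rw [e]; linarith

lemma Lim.mul {V : Submodule ℝ (ES D)} {F : ES D → ℝ} (hF : Lim V F) (a : ℝ) :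
    Lim V fun W => a * F W := by
  refine ⟨hF.1.const_mul a, fun η hη => ?_⟩
  obtain ⟨f, hf, h1⟩ := hF.2 (η / (|a| + 1)) (by positivity)
  refine ⟨a • f, (CosP V).smul_mem a hf, ?_⟩
  have e : (fun W => a * F W - (a • f) W) = fun W => a * (F W - f W) := by
    funext W; simp only [Pi.smul_apply, smul_eq_mul]; ring
  rw [e, variance_const_mul, Real.sqrt_mul (sq_nonneg _), Real.sqrt_sq_eq_abs]
  rw [le_div_iff₀ (by positivity)] at h1
  nlinarith [Real.sqrt_nonneg (Var[fun W => F W - f W; gam D])]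

lemma unit_of_ne {u : ES D} (hu : u ≠ 0) : ‖‖u‖⁻¹ • u‖ = 1 := norm_smul_inv_norm hu

lemma lim_sc {V : Submodule ℝ (ES D)} {u v : ES D} (hu : u ∈ V) (hv : v ∈ V) (hu0 : u ≠ 0)
    (hv0 : v ≠ 0) : Lim V (sc u v) := by
  refine ⟨memLp_sc u v, fun η hη => ?_⟩
  obtain ⟨f, hf, h2, h3⟩ := exists_T (η ^ 2 / 3) (by positivity)
  refine ⟨Tf f (‖u‖⁻¹ • u) (‖v‖⁻¹ • v), Tf_mem (V.smul_mem _ hu) (V.smul_mem _ hv) hf, ?_⟩
  have := var_sc_Tf hf h2 h3 (unit_of_ne hu0) (unit_of_ne hv0)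
  simp only [sc_smul (mul_pos (inv_pos.2 (norm_pos_iff.2 hu0)) (inv_pos.2 (norm_pos_iff.2 hv0)))] at this
  exact Real.sqrt_le_iff.2 ⟨hη.le, by linarith⟩

lemma bv1 {ι : Type} (J : Finset ι) (V : ι → Submodule ℝ (ES D)) (C : ℝ)
    (hB : ∀ y : ι → ES D, (∀ j ∈ J, y j ∈ V j) → ‖∑ j ∈ J, y j‖ ^ 2 ≤ C * ∑ j ∈ J, ‖y j‖ ^ 2)
    (f : ι → ES D → ℝ) (hf : ∀ j, f j ∈ CosP (V j)) :
    Var[fun W => ∑ j ∈ J, f j W; gam D] ≤ C * ∑ j ∈ J, Var[f j; gam D] := by
  choose n c g hg using fun j => Submodule.mem_span_set'.1 (hf j)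
  choose v hv using fun j a => (g j a).2
  have e : ∀ j, f j = fun W => ∑ a, c j a * Real.cos ⟪(v j a : ES D), W⟫ := by
    intro j
    funext W
    rw [← hg j, Finset.sum_apply]
    refine Finset.sum_congr rfl fun a _ => ?_
    rw [← hv j a]; rfl
  have := bv0 J V C hB (fun j => (Finset.univ : Finset (Fin (n j)))) c (fun j a => v j a)
    fun j _ a _ => (v j a).2
  simpa only [← e, funext fun j => e j] using this

lemma bv2 {ι : Type} (J : Finset ι) (V : ι → Submodule ℝ (ES D)) (C : ℝ) (hC : 0 ≤ C)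
    (hB : ∀ y : ι → ES D, (∀ j ∈ J, y j ∈ V j) → ‖∑ j ∈ J, y j‖ ^ 2 ≤ C * ∑ j ∈ J, ‖y j‖ ^ 2)
    (F : ι → ES D → ℝ) (hF : ∀ j ∈ J, Lim (V j) (F j)) :
    Var[fun W => ∑ j ∈ J, F j W; gam D] ≤ C * ∑ j ∈ J, Var[F j; gam D] := by
  have key : ∀ η : ℝ, 0 < η → √(Var[fun W => ∑ j ∈ J, F j W; gam D]) ≤
      √(C * ∑ j ∈ J, (√(Var[F j; gam D]) + η) ^ 2) + ∑ _j ∈ J, η := by
    intro η hη
    have : ∀ j, ∃ f ∈ CosP (V j), j ∈ J → √(Var[fun W => F j W - f W; gam D]) ≤ η := by
      intro j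
      by_cases hj : j ∈ J
      · obtain ⟨f, h1, h2⟩ := (hF j hj).2 η hη
        exact ⟨f, h1, fun _ => h2⟩
      · exact ⟨0, zero_mem _, fun h => absurd h hj⟩
    choose f hf h1 using this
    have m1 : ∀ j ∈ J, MemLp (fun W => F j W - f j W) 2 (gam D) :=
      fun j hj => (hF j hj).1.sub (CosP.memLp (hf j))
    have e : (fun W => ∑ j ∈ J, F j W) = fun W => ∑ j ∈ J, f j W + ∑ j ∈ J, (F j W - f j W) := by
      funext W; rw [Finset.sum_sub_distrib]; ring
    rw [e]
    refine (sd_add_le (memLp_finsetSum _ fun j _ => CosP.memLp (hf j))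
      (memLp_finsetSum _ m1)).trans (add_le_add ?_ ?_)
    · refine Real.sqrt_le_sqrt ((bv1 J V C hB f hf).trans
        (mul_le_mul_of_nonneg_left (Finset.sum_le_sum fun j hj => ?_) hC))
      have h2 := sd_sub_le (hF j hj).1 (m1 j hj)
      simp only [sub_sub_cancel] at h2
      rw [← Real.sq_sqrt (variance_nonneg (f j) _)]
      exact pow_le_pow_left₀ (Real.sqrt_nonneg _) (h2.trans (by linarith [h1 j hj])) 2
    · exact (sd_sum_le J m1).trans (Finset.sum_le_sum h1)
  have hc : Continuous fun η : ℝ =>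
      √(C * ∑ j ∈ J, (√(Var[F j; gam D]) + η) ^ 2) + ∑ _j ∈ J, η := by fun_prop
  have h1 := ge_of_tendsto ((hc.tendsto 0).mono_left (nhdsWithin_le_nhds (s := Set.Ioi 0)))
    (eventually_nhdsWithin_of_forall key)
  simp only [add_zero, Finset.sum_const_zero, Real.sq_sqrt (variance_nonneg _ _)] at h1
  exact (Real.sqrt_le_sqrt_iff (mul_nonneg hC (Finset.sum_nonneg fun _ _ => variance_nonneg _ _))).1 h1

theorem rowBV : RowBV := by
  intro D ι J a b c C κ₁ κ₂ κ₃ hC h0 hB
  refine bv2 J (fun j => Submodule.span ℝ {a j, b j, c j}) C hC (fun y hy => ?_) _ fun j hj => ?_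
  · have : ∀ j, ∃ α β γ : ℝ, j ∈ J → α • a j + β • b j + γ • c j = y j := by
      intro j
      by_cases hj : j ∈ J
      · obtain ⟨α, β, γ, h⟩ := Submodule.mem_span_triple.1 (hy j hj)
        exact ⟨α, β, γ, fun _ => h⟩
      · exact ⟨0, 0, 0, fun h => absurd h hj⟩
    choose α β γ h using this
    have := hB α β γ
    rwa [Finset.sum_congr rfl h, Finset.sum_congr (g := fun j => ‖y j‖ ^ 2) rfl
      fun j hj => by rw [h j hj]] at this
  · have ha : a j ∈ Submodule.span ℝ {a j, b j, c j} := Submodule.subset_span (by simp)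
    have hb : b j ∈ Submodule.span ℝ {a j, b j, c j} := Submodule.subset_span (by simp)
    have hc : c j ∈ Submodule.span ℝ {a j, b j, c j} := Submodule.subset_span (by simp)
    obtain ⟨h1, h2, h3⟩ := h0 j hj
    exact (((lim_sc ha hb h1 h2).mul κ₁).add ((lim_sc hb hc h2 h3).mul κ₂)).add
      ((lim_sc ha hc h1 h3).mul κ₃)

lemma db2_sub {ι : Type} {J : Finset ι} {a b : ι → ES D} {C : ℝ} (hB : DB2 J a b C) (y : ι → ES D)
    (hy : ∀ j ∈ J, y j ∈ Submodule.span ℝ {a j, b j}) :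
    ‖∑ j ∈ J, y j‖ ^ 2 ≤ C * ∑ j ∈ J, ‖y j‖ ^ 2 := by
  have : ∀ j, ∃ α β : ℝ, j ∈ J → α • a j + β • b j = y j := by
    intro j
    by_cases hj : j ∈ J
    · obtain ⟨α, β, h⟩ := Submodule.mem_span_pair.1 (hy j hj)
      exact ⟨α, β, fun _ => h⟩
    · exact ⟨0, 0, fun h => absurd h hj⟩
  choose α β h using this
  have := hB α β
  rwa [Finset.sum_congr rfl h, Finset.sum_congr (g := fun j => ‖y j‖ ^ 2) rfl
    fun j hj => by rw [h j hj]] at this

end

end Pool.Agent.MP_f6b137_pr.H74
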