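import Pool.Agent.MP_f6b137_pr.H74.Spec

/-! Small facts shared by all parts. -/

namespace Pool.Agent.MP_f6b137_pr.H74

open MeasureTheory ProbabilityTheory Filter Topology Polynomial
open scoped Real RealInnerProductSpace

noncomputable section

section var

variable {Ω : Type*} [MeasurableSpace Ω] {P : Measure Ω} [IsProbabilityMeasure P]

lemma memLp_bdd {f : Ω → ℝ} (hf : Measurable f) (M : ℝ) (h : ∀ x, |f x| ≤ M) : MemLp f 2 P :=
  MemLp.of_bound hf.aestronglyMeasurable M (Eventually.of_forall h)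

lemma cov_sq_le {f g : Ω → ℝ} (hf : MemLp f 2 P) (hg : MemLp g 2 P) :
    cov[f, g; P] ^ 2 ≤ Var[f; P] * Var[g; P] := by
  have h : ∀ x : ℝ, 0 ≤ Var[g; P] * (x * x) + (2 * cov[f, g; P]) * x + Var[f; P] := by
    intro x
    have h1 := variance_nonneg (fun ω => f ω + x * g ω) P
    rw [variance_fun_add hf (hg.const_mul x), covariance_const_mul_right, variance_const_mul] at h1
    linarith
  have := discrim_le_zero h
  unfold discrim at this
  linarith

lemma sd_add_le {f g : Ω → ℝ} (hf : MemLp f 2 P) (hg : MemLp g 2 P) :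
    √(Var[fun ω => f ω + g ω; P]) ≤ √(Var[f; P]) + √(Var[g; P]) := by
  rw [variance_fun_add hf hg]
  have h1 := Real.sq_sqrt (variance_nonneg f P)
  have h2 := Real.sq_sqrt (variance_nonneg g P)
  have h3 : cov[f, g; P] ≤ √(Var[f; P]) * √(Var[g; P]) := by
    rw [← Real.sqrt_mul (variance_nonneg f P)]
    exact Real.le_sqrt_of_sq_le (cov_sq_le hf hg)
  refine Real.sqrt_le_iff.mpr ⟨by positivity, ?_⟩
  nlinarith

lemma sd_sub_le {f g : Ω → ℝ} (hf : MemLp f 2 P) (hg : MemLp g 2 P) :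
    √(Var[fun ω => f ω - g ω; P]) ≤ √(Var[f; P]) + √(Var[g; P]) := by
  have := sd_add_le hf hg.neg
  rw [variance_neg] at this
  simpa [sub_eq_add_neg] using this

lemma sd_sum_le {ι : Type*} (s : Finset ι) {f : ι → Ω → ℝ} (hf : ∀ i ∈ s, MemLp (f i) 2 P) :
    √(Var[fun ω => ∑ i ∈ s, f i ω; P]) ≤ ∑ i ∈ s, √(Var[f i; P]) := by
  classical
  induction s using Finset.induction_on with
  | empty => simp [variance_eq_integral]
  | insert a s ha ih =>
    simp only [Finset.sum_insert ha]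
    have h1 : ∀ i ∈ s, MemLp (f i) 2 P := fun i hi => hf i (Finset.mem_insert_of_mem hi)
    exact (sd_add_le (hf a (Finset.mem_insert_self _ _)) (memLp_finsetSum s h1)).trans
      (by linarith [ih h1])

lemma var_add_le {f g : Ω → ℝ} (hf : MemLp f 2 P) (hg : MemLp g 2 P) :
    Var[fun ω => f ω + g ω; P] ≤ 2 * Var[f; P] + 2 * Var[g; P] := by
  have h := variance_nonneg (fun ω => f ω - g ω) P
  rw [variance_fun_sub hf hg] at h
  rw [variance_fun_add hf hg]
  linarith

lemma var_sub_le {f g : Ω → ℝ} (hf : MemLp f 2 P) (hg : MemLp g 2 P) :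
    Var[fun ω => f ω - g ω; P] ≤ 2 * Var[f; P] + 2 * Var[g; P] := by
  have h := variance_nonneg (fun ω => f ω + g ω) P
  rw [variance_fun_add hf hg] at h
  rw [variance_fun_sub hf hg]
  linarith

/-- variance of a function that is small off a set of small probability -/
lemma var_le_of_bad {f : Ω → ℝ} (hf : Measurable f) (M a : ℝ) (ha : 0 ≤ a) (S : Set Ω)
    (h1 : ∀ x, |f x| ≤ M) (h2 : ∀ x, x ∉ S → f x ^ 2 ≤ a) : Var[f; P] ≤ a + M ^ 2 * P.real S := by
  refine (variance_le_expectation_sq hf.aestronglyMeasurable).trans ?_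
  have hT := measurableSet_toMeasurable P S
  have e : a + M ^ 2 * P.real S =
      ∫ x, (a + (toMeasurable P S).indicator (fun _ => M ^ 2) x) ∂P := by
    rw [integral_add (integrable_const _) ((integrable_const _).indicator hT),
      integral_indicator hT]
    simp [measureReal_def, mul_comm]
  rw [e]
  refine integral_mono (memLp_bdd hf M h1).integrable_sq
    ((integrable_const _).add ((integrable_const _).indicator hT)) fun x => ?_
  simp only [Pi.pow_apply]
  by_cases hx : x ∈ toMeasurable P S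
  · rw [Set.indicator_of_mem hx]
    have := sq_le_sq' (abs_le.1 (h1 x)).1 (abs_le.1 (h1 x)).2
    linarith
  · rw [Set.indicator_of_notMem hx, add_zero]
    exact h2 x fun h => hx (subset_toMeasurable P S h)

end var

section chg

lemma chg_nonneg (x y : ℝ) : 0 ≤ chg x y := by unfold chg; split_ifs <;> norm_num

lemma chg_le_one (x y : ℝ) : chg x y ≤ 1 := by unfold chg; split_ifs <;> norm_num

lemma abs_chg_le (x y : ℝ) : |chg x y| ≤ 1 :=
  abs_le.2 ⟨by linarith [chg_nonneg x y], chg_le_one x y⟩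

lemma chg_mul {c c' : ℝ} (h : 0 < c * c') (x y : ℝ) : chg (c * x) (c' * y) = chg x y := by
  unfold chg
  rw [show c * x * (c' * y) = (c * c') * (x * y) by ring]
  have : c * c' * (x * y) < 0 ↔ x * y < 0 :=
    ⟨fun h1 => by by_contra h2; nlinarith [mul_nonneg h.le (not_lt.1 h2)],
      fun h1 => mul_neg_of_pos_of_neg h h1⟩
  simp only [this]

lemma measurable_chg {Ω : Type*} [MeasurableSpace Ω] {f g : Ω → ℝ} (hf : Measurable f)
    (hg : Measurable g) : Measurable fun ω => chg (f ω) (g ω) :=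
  Measurable.ite (measurableSet_lt (hf.mul hg) measurable_const) measurable_const measurable_const

variable {D : ℕ}

lemma measurable_inner' (u : ES D) : Measurable fun W : ES D => ⟪u, W⟫ := by fun_prop

lemma measurable_sc (u v : ES D) : Measurable (sc u v) :=
  measurable_chg (measurable_inner' u) (measurable_inner' v)

lemma abs_sc_le (u v W : ES D) : |sc u v W| ≤ 1 := abs_chg_le _ _

lemma memLp_sc (u v : ES D) : MemLp (sc u v) 2 (gam D) :=
  memLp_bdd (measurable_sc u v) 1 (abs_sc_le u v)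

lemma var_sc_le (u v : ES D) : Var[sc u v; gam D] ≤ 1 := by
  have := var_le_of_bad (P := gam D) (measurable_sc u v) 1 1 zero_le_one ∅ (abs_sc_le u v)
    (fun x _ => by simpa using (sq_le_one_iff_abs_le_one _).2 (abs_sc_le u v x))
  simpa using this

lemma sc_smul {c c' : ℝ} (h : 0 < c * c') (u v W : ES D) : sc (c • u) (c' • v) W = sc u v W := by
  unfold sc
  rw [real_inner_smul_left, real_inner_smul_left, chg_mul h]

lemma measurable_Sl (K : ℝ → ES D) (N l : ℕ) : Measurable (Sl K N l) :=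
  Finset.measurable_sum _ fun _ _ => Finset.measurable_sum _ fun _ _ => measurable_sc _ _

lemma Sl_nonneg (K : ℝ → ES D) (N l : ℕ) (W : ES D) : 0 ≤ Sl K N l W :=
  Finset.sum_nonneg fun _ _ => Finset.sum_nonneg fun _ _ => chg_nonneg _ _

lemma memLp_Sl (K : ℝ → ES D) (N l : ℕ) : MemLp (Sl K N l) 2 (gam D) :=
  memLp_finsetSum _ fun _ _ => memLp_finsetSum _ fun _ _ => memLp_sc _ _

lemma measurable_blk (e : ℕ → ES D) (B b : ℕ) : Measurable (blk e B b) :=
  measurable_pi_lambda _ fun _ => measurable_inner' _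

lemma measurable_Ym (B : ℕ) (t : ℝ) : Measurable fun ξ : Fin B → ℝ => Ym ξ t := by
  unfold Ym; fun_prop

lemma measurable_Gm (l R B : ℕ) : Measurable (Gm l R B) :=
  Finset.measurable_sum _ fun _ _ => Finset.measurable_sum _ fun _ _ =>
    measurable_chg (measurable_Ym _ _) (measurable_Ym _ _)

lemma abs_Gm_le (l R B : ℕ) (ξ : Fin B → ℝ) : |Gm l R B ξ| ≤ B * 2 ^ l := by
  unfold Gm
  rw [abs_of_nonneg (Finset.sum_nonneg fun _ _ => Finset.sum_nonneg fun _ _ => chg_nonneg _ _)]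
  refine (Finset.sum_le_sum fun _ _ => Finset.sum_le_sum fun _ _ => chg_le_one _ _).trans ?_
  simp only [Finset.sum_const, Finset.card_range, Nat.card_Ico, nsmul_eq_mul, mul_one]
  push_cast
  gcongr
  omega

lemma Ym_blk (e : ℕ → ES D) (B b : ℕ) (W : ES D) (t : ℝ) :
    Ym (blk e B b W) t = ⟪Vb e B b t, W⟫ := by
  unfold Ym Vb blk
  rw [sum_inner, Fin.sum_univ_eq_sum_range (fun i => sk t i * ⟪e (b * B + i), W⟫)]
  simp only [real_inner_smul_left]

lemma Gm_blk (l R : ℕ) (e : ℕ → ES D) (B b : ℕ) (W : ES D) :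
    Gm l R B (blk e B b W) = ∑ j ∈ Finset.Ico R (B - R), ∑ k ∈ Finset.range (2 ^ l),
      sc (Vb e B b (j + k / 2 ^ l)) (Vb e B b (j + (k + 1) / 2 ^ l)) W := by
  simp only [Gm, Ym_blk, sc]

end chg

section gauss

variable {D : ℕ}

lemma map_inner (v : ES D) :
    (gam D).map (fun ξ => ⟪v, ξ⟫) = gaussianReal 0 (‖v‖ ^ 2).toNNReal := by
  have h := IsGaussian.map_eq_gaussianReal (μ := gam D) (innerSL ℝ v)
  rw [integral_strongDual_stdGaussian, variance_dual_stdGaussian, innerSL_apply_norm] at h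
  exact h

lemma memLp_inner (v : ES D) : MemLp (fun ξ => ⟪v, ξ⟫) 2 (gam D) :=
  IsGaussian.memLp_dual (gam D) (innerSL ℝ v) 2 (by simp)

lemma integral_inner (v : ES D) : ∫ ξ, ⟪v, ξ⟫ ∂gam D = 0 :=
  integral_strongDual_stdGaussian (innerSL ℝ v)

lemma integral_inner_sq (v : ES D) : ∫ ξ, ⟪v, ξ⟫ ^ 2 ∂gam D = ‖v‖ ^ 2 := by
  have h : Var[fun ξ => ⟪v, ξ⟫; gam D] = ‖innerSL ℝ v‖ ^ 2 :=
    variance_dual_stdGaussian (innerSL ℝ v)
  rw [innerSL_apply_norm, variance_eq_sub (memLp_inner v), integral_inner] at h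
  simpa using h

lemma cov_inner (v w : ES D) : cov[fun ξ => ⟪v, ξ⟫, fun ξ => ⟪w, ξ⟫; gam D] = ⟪v, w⟫ := by
  rw [← covarianceBilin_apply_eq_cov IsGaussian.memLp_two_id, covarianceBilin_stdGaussian]
  rfl

lemma ONf.mono {e : ℕ → ES D} {m m' : ℕ} (h : ONf e m) (hm : m' ≤ m) : ONf e m' :=
  fun j hj k hk => h j (by omega) k (by omega)

lemma ONf.inner_sum {e : ℕ → ES D} {m : ℕ} (h : ONf e m) {S : Finset ℕ} (hS : ∀ i ∈ S, i < m)
    (c : ℕ → ℝ) {j : ℕ} (hj : j < m) :
    ⟪e j, ∑ i ∈ S, c i • e i⟫ = if j ∈ S then c j else 0 := by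
  rw [_root_.inner_sum, ← Finset.sum_ite_eq S j c]
  refine Finset.sum_congr rfl fun i hi => ?_
  rw [real_inner_smul_right, h j hj i (hS i hi)]
  split_ifs with h1
  · simp
  · simp

lemma ONf.inner_sum_sum {e : ℕ → ES D} {m : ℕ} (h : ONf e m) {S : Finset ℕ} (hS : ∀ i ∈ S, i < m)
    (c c' : ℕ → ℝ) : ⟪∑ i ∈ S, c i • e i, ∑ i ∈ S, c' i • e i⟫ = ∑ i ∈ S, c i * c' i := by
  rw [sum_inner]
  refine Finset.sum_congr rfl fun i hi => ?_
  rw [real_inner_smul_left, h.inner_sum hS c' (hS i hi), if_pos hi]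

lemma ONf.norm_sum {e : ℕ → ES D} {m : ℕ} (h : ONf e m) {S : Finset ℕ} (hS : ∀ i ∈ S, i < m)
    (c : ℕ → ℝ) : ‖∑ i ∈ S, c i • e i‖ ^ 2 = ∑ i ∈ S, c i ^ 2 := by
  rw [← real_inner_self_eq_norm_sq, h.inner_sum_sum hS]
  simp only [sq]

lemma ONf.bessel {e : ℕ → ES D} {m : ℕ} (h : ONf e m) (W : ES D) :
    ∑ k ∈ Finset.range m, ⟪e k, W⟫ ^ 2 ≤ ‖W‖ ^ 2 := by
  have h1 := h.norm_sum (S := Finset.range m) (fun i hi => Finset.mem_range.1 hi) fun k => ⟪e k, W⟫
  have h2 : ⟪∑ k ∈ Finset.range m, ⟪e k, W⟫ • e k, W⟫ = ∑ k ∈ Finset.range m, ⟪e k, W⟫ ^ 2 := by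
    rw [sum_inner]; simp only [real_inner_smul_left, sq]
  have h3 := norm_sub_sq_real (∑ k ∈ Finset.range m, ⟪e k, W⟫ • e k) W
  rw [h1, h2] at h3
  nlinarith [sq_nonneg ‖∑ k ∈ Finset.range m, ⟪e k, W⟫ • e k - W‖]

end gauss

section meas

variable {μ : Measure ℝ} {C₀ : ℝ} {s : ℕ} {p : ℕ → ℝ[X]} {D : ℕ}

lemma ctr_mem {N j : ℕ} (hj : j < N) : ctr N j ∈ Set.Icc 0 π := by
  have hN : (0 : ℝ) < N := by exact_mod_cast (by omega : 0 < N)
  have h1 : (j : ℝ) + 1 ≤ N := by exact_mod_cast hj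
  refine ⟨by unfold ctr; positivity, ?_⟩
  unfold ctr
  rw [div_le_iff₀ hN]
  nlinarith [Real.pi_pos]

lemma Dbl.mass_low (h : Dbl μ C₀ s) {N j : ℕ} (hj : j < N) :
    μ.real Set.univ ≤ C₀ * (N : ℝ) ^ s * mass μ N j := by
  have := h.fin
  have hN : (1 : ℝ) ≤ N := by exact_mod_cast (by omega : 1 ≤ N)
  have hc := ctr_mem hj
  refine le_trans ?_ (h.dbl _ hc (π / N) N (by have := Real.pi_pos; positivity) hN)
  rw [mul_div_cancel₀ _ (by linarith)]
  refine ENNReal.toReal_mono (measure_ne_top _ _) (measure_mono_ae ?_)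
  filter_upwards [h.supp] with θ hθ _
  have hθ : θ ∈ Set.Icc 0 π := hθ
  change θ ∈ Metric.closedBall _ _
  rw [Metric.mem_closedBall, Real.dist_eq, abs_le]
  constructor <;> linarith [hθ.1, hθ.2, hc.1, hc.2]

lemma mass_nonneg (μ : Measure ℝ) (N j : ℕ) : 0 ≤ mass μ N j := measureReal_nonneg

lemma Dbl.C_pos (h : Dbl μ C₀ s) : 0 < C₀ := by
  have h1 := h.pos.trans_le (h.mass_low (N := 1) (j := 0) one_pos)
  by_contra h2
  have := mul_nonneg (neg_nonneg.2 (not_lt.1 h2)) (mass_nonneg μ 1 0)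
  simp only [Nat.cast_one, one_pow, mul_one] at h1
  linarith

lemma Dbl.mass_pos (h : Dbl μ C₀ s) {N j : ℕ} (hj : j < N) : 0 < mass μ N j := by
  have h1 := h.pos.trans_le (h.mass_low hj)
  rcases (mass_nonneg μ N j).eq_or_lt with h2 | h2
  · rw [← h2] at h1; simp at h1
  · exact h2

/-- continuous functions of the cosine are integrable -/
lemma integrable_cos [IsFiniteMeasure μ] {g : ℝ → ℝ} (hg : Continuous g) :
    Integrable (fun θ => g (Real.cos θ)) μ := by
  obtain ⟨M, hM⟩ := isCompact_Icc.exists_bound_of_continuousOn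
    (hg.continuousOn (s := Set.Icc (-1 : ℝ) 1))
  exact Integrable.of_bound (hg.comp Real.continuous_cos).aestronglyMeasurable M
    (Eventually.of_forall fun θ => hM _ ⟨Real.neg_one_le_cos θ, Real.cos_le_one θ⟩)

lemma integrable_eval_mul [IsFiniteMeasure μ] (f g : ℝ[X]) :
    Integrable (fun θ => f.eval (Real.cos θ) * g.eval (Real.cos θ)) μ :=
  integrable_cos (g := fun x => f.eval x * g.eval x) (f.continuous.mul g.continuous)

lemma inner_Kt (p : ℕ → ℝ[X]) (n N : ℕ) (φ : ℕ → ES D) (t : ℝ) (W : ES D) :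
    ⟪Kt p n N φ t, W⟫ = (Pw p n φ W).eval (Real.cos (π * t / N)) := by
  unfold Kt Pw
  rw [sum_inner, eval_finsetSum]
  simp only [real_inner_smul_left, eval_mul, eval_C, mul_comm]

lemma natDegree_comb (hp : ∀ k, (p k).natDegree = k) (n : ℕ) (c : ℕ → ℝ) :
    (∑ k ∈ Finset.range (n + 1), C (c k) * p k).natDegree ≤ n :=
  natDegree_sum_le_of_forall_le _ _ fun k hk =>
    (natDegree_C_mul_le _ _).trans (by rw [hp]; exact Nat.lt_succ_iff.1 (Finset.mem_range.1 hk))

lemma natDegree_Pw (hp : ∀ k, (p k).natDegree = k) (n : ℕ) (φ : ℕ → ES D) (W : ES D) :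
    (Pw p n φ W).natDegree ≤ n := natDegree_comb hp n _

lemma cnt_blk (p : ℕ → ℝ[X]) (n : ℕ) (φ : ℕ → ES D) (W : ES D) :
    cnt p n (blk φ (n + 1) 0 W) = ((Pw p n φ W).roots.toFinset.card : ℝ) := by
  unfold cnt Pw blk
  simp only [zero_mul, zero_add]
  rw [Fin.sum_univ_eq_sum_range (fun k => C ⟪φ k, W⟫ * p k)]

lemma card_roots_le {f : ℝ[X]} {n : ℕ} (hf : f.natDegree ≤ n) : f.roots.toFinset.card ≤ n :=
  (Multiset.toFinset_card_le _).trans ((card_roots' _).trans hf)

lemma abs_cnt_le (hp : ∀ k, (p k).natDegree = k) (n : ℕ) (c : Fin (n + 1) → ℝ) :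
    |cnt p n c| ≤ n := by
  unfold cnt
  rw [Nat.abs_cast, Nat.cast_le]
  exact card_roots_le (natDegree_sum_le_of_forall_le _ _ fun k _ =>
    (natDegree_C_mul_le _ _).trans (by rw [hp]; exact Nat.lt_succ_iff.1 k.2))

lemma ONP.int_comb [IsFiniteMeasure μ] (h : ONP μ p) (n : ℕ) (c c' : ℕ → ℝ) :
    ∫ θ, (∑ k ∈ Finset.range (n + 1), C (c k) * p k).eval (Real.cos θ) *
      (∑ k ∈ Finset.range (n + 1), C (c' k) * p k).eval (Real.cos θ) ∂μ =
      ∑ k ∈ Finset.range (n + 1), c k * c' k := by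
  have e : ∀ θ, (∑ k ∈ Finset.range (n + 1), C (c k) * p k).eval (Real.cos θ) *
      (∑ k ∈ Finset.range (n + 1), C (c' k) * p k).eval (Real.cos θ) =
      ∑ j ∈ Finset.range (n + 1), ∑ k ∈ Finset.range (n + 1),
        c j * c' k * ((p j).eval (Real.cos θ) * (p k).eval (Real.cos θ)) := by
    intro θ
    rw [eval_finsetSum, eval_finsetSum, Finset.sum_mul_sum]
    simp only [eval_mul, eval_C]
    exact Finset.sum_congr rfl fun _ _ => Finset.sum_congr rfl fun _ _ => by ring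
  simp only [e]
  rw [integral_finsetSum _ fun j _ => integrable_finsetSum _ fun k _ =>
    (integrable_eval_mul _ _).const_mul _]
  refine Finset.sum_congr rfl fun j hj => ?_
  rw [integral_finsetSum _ fun k _ => (integrable_eval_mul _ _).const_mul _]
  simp only [integral_const_mul, h.on, mul_ite, mul_one, mul_zero, Finset.sum_ite_eq, hj, if_true]

lemma ONP.int_Pw [IsFiniteMeasure μ] (h : ONP μ p) (n : ℕ) (φ : ℕ → ES D) (W : ES D) :
    ∫ θ, (Pw p n φ W).eval (Real.cos θ) ^ 2 ∂μ = ∑ k ∈ Finset.range (n + 1), ⟪φ k, W⟫ ^ 2 := by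
  simp only [sq]
  exact h.int_comb n _ _

lemma ONP.ne_zero (h : ONP μ p) (k : ℕ) : p k ≠ 0 := by
  intro h0
  have := h.on k k
  simp [h0] at this

lemma ONP.exists_comb (h : ONP μ p) (n : ℕ) (g : ℝ[X]) (hg : g.natDegree ≤ n) :
    ∃ c : ℕ → ℝ, g = ∑ k ∈ Finset.range (n + 1), C (c k) * p k := by
  have key : ∀ (m : ℕ) (g : ℝ[X]), g.degree < m →
      ∃ c : ℕ → ℝ, g = ∑ k ∈ Finset.range m, C (c k) * p k := by
    intro m
    induction m with
    | zero => intro g hg; exact ⟨0, by simpa using hg⟩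
    | succ m ih =>
      intro g hg
      have hl : (p m).coeff m ≠ 0 := by
        have := leadingCoeff_ne_zero.2 (h.ne_zero m)
        rwa [leadingCoeff, h.deg] at this
      obtain ⟨c, hc⟩ := ih (g - C (g.coeff m / (p m).coeff m) * p m) (by
        rw [degree_lt_iff_coeff_zero]
        intro i hi
        rw [coeff_sub, coeff_C_mul]
        rcases hi.eq_or_lt with rfl | hi
        · field_simp; ring
        · rw [coeff_eq_zero_of_natDegree_lt (p := p m) (n := i) (by rw [h.deg]; exact hi),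
            (degree_lt_iff_coeff_zero _ _).1 hg i hi]
          simp)
      refine ⟨fun k => if k = m then g.coeff m / (p m).coeff m else c k, ?_⟩
      rw [Finset.sum_range_succ]
      beta_reduce
      rw [if_pos rfl,
        Finset.sum_congr rfl fun k hk => by rw [if_neg (Finset.mem_range.1 hk).ne], ← hc]
      ring
  exact key (n + 1) g (degree_le_natDegree.trans_lt (by exact_mod_cast Nat.lt_succ_of_le hg))

/-- every polynomial of degree at most `n` is realised by a vector of the right norm -/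
lemma ONP.exists_test [IsFiniteMeasure μ] (h : ONP μ p) {n : ℕ} {φ : ℕ → ES D}
    (hφ : ONf φ (n + 1)) (g : ℝ[X]) (hg : g.natDegree ≤ n) :
    ∃ y : ES D, Pw p n φ y = g ∧ ‖y‖ ^ 2 = ∫ θ, g.eval (Real.cos θ) ^ 2 ∂μ := by
  obtain ⟨c, rfl⟩ := h.exists_comb n g hg
  have hS : ∀ i ∈ Finset.range (n + 1), i < n + 1 := fun i hi => Finset.mem_range.1 hi
  refine ⟨∑ k ∈ Finset.range (n + 1), c k • φ k, ?_, ?_⟩
  · refine Finset.sum_congr rfl fun k hk => ?_
    rw [hφ.inner_sum hS c (hS k hk), if_pos hk]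
  · rw [hφ.norm_sum hS]
    simp only [sq]
    exact (h.int_comb n c c).symm

lemma le_card_roots_iff (P : ℝ[X]) (r : ℕ) : r + 1 ≤ P.roots.toFinset.card ↔
    (¬ ∀ i, P.coeff i = 0) ∧ ∃ L : ℕ, ∃ x : Fin (r + 1) → ℝ, ((∀ i, |x i| ≤ L) ∧
      ∀ i j, i ≠ j → 1 / ((L : ℝ) + 1) ≤ |x i - x j|) ∧ ∀ i, P.eval (x i) = 0 := by
  classical
  have h0 : (∀ i, P.coeff i = 0) ↔ P = 0 :=
    ⟨fun h => Polynomial.ext (by simpa using h), fun h => by simp [h]⟩
  rw [h0]
  constructor
  · intro h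
    have hP : P ≠ 0 := by
      rintro rfl
      simp at h
    obtain ⟨f⟩ : Nonempty (Fin (r + 1) ↪ P.roots.toFinset) :=
      Function.Embedding.nonempty_of_card_le (by simpa using h)
    have e1 : ∀ i, ∀ᶠ L : ℕ in atTop, |(f i : ℝ)| ≤ L := fun i =>
      tendsto_natCast_atTop_atTop.eventually (eventually_ge_atTop _)
    have e2 : ∀ i j, ∀ᶠ L : ℕ in atTop, i ≠ j → 1 / ((L : ℝ) + 1) ≤ |(f i : ℝ) - f j| := by
      intro i j
      by_cases hij : i = j
      · exact Eventually.of_forall (fun L h => absurd hij h)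
      · have : 0 < |(f i : ℝ) - f j| :=
          abs_pos.2 (sub_ne_zero.2 (fun h => hij (f.injective (Subtype.ext h))))
        exact (tendsto_one_div_add_atTop_nhds_zero_nat.eventually (ge_mem_nhds this)).mono
          (fun L h _ => h)
    obtain ⟨L, hL1, hL2⟩ := ((eventually_all.2 e1).and
      (eventually_all.2 (fun i => eventually_all.2 (e2 i)))).exists
    refine ⟨hP, L, fun i => f i, ⟨hL1, hL2⟩, fun i => ?_⟩
    have := (f i).2
    rwa [Multiset.mem_toFinset, mem_roots hP, IsRoot.def] at this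
  · rintro ⟨hP, L, x, ⟨-, h1⟩, h2⟩
    have := Finset.card_le_card_of_injOn (s := (Finset.univ : Finset (Fin (r + 1))))
      (t := P.roots.toFinset) x (fun i _ => by simp [hP, h2 i]) (fun i _ j _ hij => by
        by_contra hne
        have h3 := h1 i j hne
        rw [hij, sub_self, abs_zero] at h3
        have : (0 : ℝ) < 1 / ((L : ℝ) + 1) := by positivity
        linarith)
    simpa using this

lemma measurable_count (p : ℕ → ℝ[X]) (m : ℕ) :
    Measurable (fun c : Fin m → ℝ => (∑ k : Fin m, C (c k) * p k).roots.toFinset.card) := by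
  refine measurable_of_Ici (fun r => ?_)
  rcases r with _ | r
  · simp
  have e : (fun c : Fin m → ℝ => (∑ k : Fin m, C (c k) * p k).roots.toFinset.card) ⁻¹' Set.Ici (r + 1)
      = (⋂ i, {c : Fin m → ℝ | (∑ k : Fin m, C (c k) * p k).coeff i = 0})ᶜ ∩
        ⋃ L : ℕ, Prod.fst '' {z : (Fin m → ℝ) × {x : Fin (r + 1) → ℝ | (∀ i, |x i| ≤ L) ∧
          ∀ i j, i ≠ j → 1 / ((L : ℝ) + 1) ≤ |x i - x j|} |
          ∀ i, (∑ k : Fin m, C (z.1 k) * p k).eval (z.2.1 i) = 0} := by
    ext c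
    simp only [Set.mem_preimage, Set.mem_Ici, le_card_roots_iff, Set.mem_inter_iff,
      Set.mem_compl_iff, Set.mem_iInter, Set.mem_iUnion, Set.mem_image, Set.mem_ofPred_eq]
    refine and_congr_right (fun _ => exists_congr (fun L => ⟨?_, ?_⟩))
    · rintro ⟨x, h1, h2⟩
      exact ⟨(c, ⟨x, h1⟩), h2, rfl⟩
    · rintro ⟨⟨c', x, h1⟩, h2, rfl⟩
      exact ⟨x, h1, h2⟩
  rw [e]
  refine (MeasurableSet.iInter (fun i => ?_)).compl.inter (MeasurableSet.iUnion (fun L => ?_))
  · simp only [finsetSum_coeff, coeff_C_mul]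
    exact (isClosed_eq (by fun_prop) continuous_const).measurableSet
  · have hc : IsCompact {x : Fin (r + 1) → ℝ | (∀ i, |x i| ≤ L) ∧
        ∀ i j, i ≠ j → 1 / ((L : ℝ) + 1) ≤ |x i - x j|} := by
      refine (isCompact_Icc (a := fun _ => -(L : ℝ)) (b := fun _ => (L : ℝ))).of_isClosed_subset ?_
        (fun x hx => ⟨fun i => (abs_le.1 (hx.1 i)).1, fun i => (abs_le.1 (hx.1 i)).2⟩)
      simp only [Set.ofPred_and, Set.ofPred_forall]
      exact (isClosed_iInter (fun i => isClosed_le (by fun_prop) continuous_const)).inter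
        (isClosed_iInter (fun i => isClosed_iInter (fun j => isClosed_iInter (fun _ =>
          isClosed_le continuous_const (by fun_prop)))))
    have := isCompact_iff_compactSpace.1 hc
    refine (isClosedMap_fst_of_compactSpace _ ?_).measurableSet
    simp only [Set.ofPred_forall, eval_finsetSum, eval_mul, eval_C]
    refine isClosed_iInter (fun i => isClosed_eq (continuous_finsetSum _ (fun k _ => ?_))
      continuous_const)
    exact Continuous.mul (by fun_prop) ((p k).continuous.comp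
      ((continuous_apply i).comp (continuous_subtype_val.comp continuous_snd)))

lemma measurable_cnt (p : ℕ → ℝ[X]) (n : ℕ) : Measurable (cnt p n) :=
  measurable_from_top.comp (measurable_count p (n + 1))

end meas

end

end Pool.Agent.MP_f6b137_pr.H74
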