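import Pool.Agent.MP_f6b137_pr.H74.BV

/-! Comparison of two sums of sign change indicators. -/

namespace Pool.Agent.MP_f6b137_pr.H74

open MeasureTheory ProbabilityTheory Filter Topology
open scoped Real RealInnerProductSpace

noncomputable section

/-- the data of a comparison -/
structure Cd {D : ℕ} {ι : Type} (J : Finset ι) (u u' v v' : ι → ES D) (C : ℝ) : Prop where
  nn : 0 ≤ C
  un : ∀ j ∈ J, ‖u j‖ = 1 ∧ ‖u' j‖ = 1 ∧ ‖v j‖ = 1 ∧ ‖v' j‖ = 1
  du : DB2 J u u' C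
  dv : DB2 J v v' C

def Mid (f g : ℝ → ℝ) : Prop :=
  ∃ K : ℝ, 0 ≤ K ∧ ∀ (D : ℕ) (ι : Type) (J : Finset ι) (u u' v v' : ι → ES D) (C : ℝ),
    Cd J u u' v v' C →
    √(Var[fun W => ∑ j ∈ J, (f ⟪u j, W⟫ * g ⟪u' j, W⟫ - f ⟪v j, W⟫ * g ⟪v' j, W⟫); gam D]) ≤
      K * √(C * ∑ j ∈ J, (‖u j - v j‖ ^ 2 + ‖u' j - v' j‖ ^ 2))

variable {D : ℕ} {ι : Type} {J : Finset ι} {u u' v v' : ι → ES D} {C : ℝ}

lemma norm_comb_le (a b : ℝ) (x y : ES D) : ‖a • x + b • y‖ ≤ |a| * ‖x‖ + |b| * ‖y‖ := by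
  refine (norm_add_le _ _).trans ?_
  rw [norm_smul, norm_smul, Real.norm_eq_abs, Real.norm_eq_abs]

lemma db2_scalar (hC : 0 ≤ C) (h : DB2 J u u' C) (hu : ∀ j ∈ J, ‖u j‖ = 1 ∧ ‖u' j‖ = 1) (a b : ℝ)
    (y : ι → ℝ) :
    ‖∑ j ∈ J, y j • (a • u j + b • u' j)‖ ^ 2 ≤ C * (|a| + |b|) ^ 2 * ∑ j ∈ J, y j ^ 2 := by
  have := h (fun j => y j * a) (fun j => y j * b)
  simp only [mul_smul, ← smul_add] at this
  refine this.trans ?_
  rw [mul_assoc, Finset.mul_sum J (fun j => y j ^ 2)]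
  refine mul_le_mul_of_nonneg_left (Finset.sum_le_sum fun j hj => ?_) hC
  have h1 := norm_comb_le a b (u j) (u' j)
  rw [(hu j hj).1, (hu j hj).2, mul_one, mul_one] at h1
  rw [norm_smul, mul_pow, Real.norm_eq_abs, sq_abs, mul_comm]
  exact mul_le_mul_of_nonneg_right (pow_le_pow_left₀ (norm_nonneg _) h1 2) (sq_nonneg _)

lemma cc2 (h : Cd J u u' v v' C) (a b : ℝ) :
    √(Var[fun W => ∑ j ∈ J, (Real.cos ⟪a • u j + b • u' j, W⟫ - Real.cos ⟪a • v j + b • v' j, W⟫);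
      gam D]) ≤ √((|a| + |b|) ^ 2 * (4 * (|a| + |b|) ^ 2 + 6) * (2 * (|a| + |b|) ^ 2)) *
      √(C * ∑ j ∈ J, (‖u j - v j‖ ^ 2 + ‖u' j - v' j‖ ^ 2)) := by
  have hC := h.nn
  rw [← Real.sqrt_mul (by positivity)]
  refine Real.sqrt_le_sqrt ((cc J _ _ (C * (|a| + |b|) ^ 2) (|a| + |b|) (by positivity)
    (db2_scalar hC h.du (fun j hj => ⟨(h.un j hj).1, (h.un j hj).2.1⟩) a b)
    (db2_scalar hC h.dv (fun j hj => (h.un j hj).2.2) a b) fun j hj => ?_).trans ?_)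
  · obtain ⟨h1, h2, h3, h4⟩ := h.un j hj
    exact ⟨by simpa [h1, h2] using norm_comb_le a b (u j) (u' j),
      by simpa [h3, h4] using norm_comb_le a b (v j) (v' j)⟩
  · have h1 : ∑ j ∈ J, ‖a • u j + b • u' j - (a • v j + b • v' j)‖ ^ 2 ≤
        2 * (|a| + |b|) ^ 2 * ∑ j ∈ J, (‖u j - v j‖ ^ 2 + ‖u' j - v' j‖ ^ 2) := by
      rw [Finset.mul_sum]
      refine Finset.sum_le_sum fun j _ => ?_
      have e : a • u j + b • u' j - (a • v j + b • v' j) = a • (u j - v j) + b • (u' j - v' j) := by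
        module
      have h2 : ‖a • (u j - v j) + b • (u' j - v' j)‖ ≤
          (|a| + |b|) * (‖u j - v j‖ + ‖u' j - v' j‖) := by
        refine (norm_comb_le _ _ _ _).trans ?_
        nlinarith [abs_nonneg a, abs_nonneg b, norm_nonneg (u j - v j), norm_nonneg (u' j - v' j),
          mul_nonneg (abs_nonneg a) (norm_nonneg (u' j - v' j)),
          mul_nonneg (abs_nonneg b) (norm_nonneg (u j - v j))]
      rw [e]
      refine (pow_le_pow_left₀ (norm_nonneg _) h2 2).trans ?_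
      rw [mul_pow]
      nlinarith [mul_nonneg (sq_nonneg (|a| + |b|)) (sq_nonneg (‖u j - v j‖ - ‖u' j - v' j‖))]
    refine (mul_le_mul_of_nonneg_left h1 (by positivity)).trans (le_of_eq ?_)
    ring

lemma memLp_mid {f g : ℝ → ℝ} (hf : f ∈ SinP) (hg : g ∈ SinP) :
    MemLp (fun W => ∑ j ∈ J, (f ⟪u j, W⟫ * g ⟪u' j, W⟫ - f ⟪v j, W⟫ * g ⟪v' j, W⟫)) 2 (gam D) :=
  memLp_finsetSum _ fun _ _ => (CosP.memLp (prod_mem (V := ⊤) trivial trivial hf hg)).sub
    (CosP.memLp (prod_mem (V := ⊤) trivial trivial hf hg))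

lemma sd_mul {Ω : Type*} [MeasurableSpace Ω] (P : Measure Ω) (a : ℝ) (f : Ω → ℝ) :
    √(Var[fun ω => a * f ω; P]) = |a| * √(Var[f; P]) := by
  rw [variance_const_mul, Real.sqrt_mul (sq_nonneg _), Real.sqrt_sq_eq_abs]

lemma mid {f g : ℝ → ℝ} (hf : f ∈ SinP) (hg : g ∈ SinP) : Mid f g := by
  induction hf, hg using Submodule.span_induction₂ with
  | mem_mem x y hx hy =>
    obtain ⟨a, rfl⟩ := hx
    obtain ⟨b, rfl⟩ := hy
    refine ⟨√((|a| + |b|) ^ 2 * (4 * (|a| + |b|) ^ 2 + 6) * (2 * (|a| + |b|) ^ 2)),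
      Real.sqrt_nonneg _, fun D ι J u u' v v' C h => ?_⟩
    have h1 := cc2 h a b
    have h2 := cc2 h a (-b)
    rw [abs_neg] at h2
    have m : ∀ b : ℝ, MemLp (fun W => ∑ j ∈ J, (Real.cos ⟪a • u j + b • u' j, W⟫ -
        Real.cos ⟪a • v j + b • v' j, W⟫)) 2 (gam D) :=
      fun b => memLp_finsetSum _ fun _ _ => (memLp_cos _).sub (memLp_cos _)
    have h3 := sd_sub_le (m (-b)) (m b)
    have e : (fun W => ∑ j ∈ J, (Real.sin (a * ⟪u j, W⟫) * Real.sin (b * ⟪u' j, W⟫) -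
        Real.sin (a * ⟪v j, W⟫) * Real.sin (b * ⟪v' j, W⟫))) = fun W => (1 / 2) *
        (∑ j ∈ J, (Real.cos ⟪a • u j + -b • u' j, W⟫ - Real.cos ⟪a • v j + -b • v' j, W⟫) -
          ∑ j ∈ J, (Real.cos ⟪a • u j + b • u' j, W⟫ - Real.cos ⟪a • v j + b • v' j, W⟫)) := by
      funext W
      rw [← Finset.sum_sub_distrib, Finset.mul_sum]
      refine Finset.sum_congr rfl fun j _ => ?_
      simp only [inner_add_left, real_inner_smul_left, Real.cos_add, neg_mul, Real.cos_neg,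
        Real.sin_neg]
      ring
    beta_reduce
    rw [e, sd_mul, abs_of_pos (by norm_num : (0 : ℝ) < 1 / 2)]
    linarith
  | zero_left y hy => exact ⟨0, le_rfl, fun D ι J u u' v v' C h => by simp [variance_eq_integral]⟩
  | zero_right y hy => exact ⟨0, le_rfl, fun D ι J u u' v v' C h => by simp [variance_eq_integral]⟩
  | add_left x y z hx hy hz h1 h2 =>
    obtain ⟨K, hK, h1⟩ := h1
    obtain ⟨K', hK', h2⟩ := h2
    refine ⟨K + K', by positivity, fun D ι J u u' v v' C h => ?_⟩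
    have h3 := sd_add_le (memLp_mid (J := J) (u := u) (u' := u') (v := v) (v' := v') hx hz)
      (memLp_mid (J := J) (u := u) (u' := u') (v := v) (v' := v') hy hz)
    simp only [← Finset.sum_add_distrib] at h3
    refine le_trans (le_of_eq ?_) (h3.trans (by linarith [h1 D ι J u u' v v' C h, h2 D ι J u u' v v' C h]))
    congr 2
    funext W
    exact Finset.sum_congr rfl fun j _ => by simp only [Pi.add_apply]; ring
  | add_right x y z hx hy hz h1 h2 =>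
    obtain ⟨K, hK, h1⟩ := h1
    obtain ⟨K', hK', h2⟩ := h2
    refine ⟨K + K', by positivity, fun D ι J u u' v v' C h => ?_⟩
    have h3 := sd_add_le (memLp_mid (J := J) (u := u) (u' := u') (v := v) (v' := v') hx hy)
      (memLp_mid (J := J) (u := u) (u' := u') (v := v) (v' := v') hx hz)
    simp only [← Finset.sum_add_distrib] at h3
    refine le_trans (le_of_eq ?_) (h3.trans (by linarith [h1 D ι J u u' v v' C h, h2 D ι J u u' v v' C h]))
    congr 2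
    funext W
    exact Finset.sum_congr rfl fun j _ => by simp only [Pi.add_apply]; ring
  | smul_left r x y _ _ h1 =>
    obtain ⟨K, hK, h1⟩ := h1
    refine ⟨|r| * K, by positivity, fun D ι J u u' v v' C h => ?_⟩
    rw [mul_assoc]
    refine le_trans (le_of_eq ?_) (mul_le_mul_of_nonneg_left (h1 D ι J u u' v v' C h) (abs_nonneg r))
    rw [← sd_mul]
    congr 2
    funext W
    rw [Finset.mul_sum]
    exact Finset.sum_congr rfl fun j _ => by simp only [Pi.smul_apply, smul_eq_mul]; ring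
  | smul_right r x y _ _ h1 =>
    obtain ⟨K, hK, h1⟩ := h1
    refine ⟨|r| * K, by positivity, fun D ι J u u' v v' C h => ?_⟩
    rw [mul_assoc]
    refine le_trans (le_of_eq ?_) (mul_le_mul_of_nonneg_left (h1 D ι J u u' v v' C h) (abs_nonneg r))
    rw [← sd_mul]
    congr 2
    funext W
    rw [Finset.mul_sum]
    exact Finset.sum_congr rfl fun j _ => by simp only [Pi.smul_apply, smul_eq_mul]; ring

lemma side {f : ℝ → ℝ} (hf : f ∈ SinP) (h2 : ∀ x, |f x| ≤ 2) {ε : ℝ}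
    (hε : ∫ x, (Real.sign x - f x) ^ 2 ∂gaussianReal 0 1 ≤ ε) (hC : 0 ≤ C) (hB : DB2 J u u' C)
    (hu : ∀ j ∈ J, ‖u j‖ = 1 ∧ ‖u' j‖ = 1) :
    Var[fun W => ∑ j ∈ J, (sc (u j) (u' j) W - Tf f (u j) (u' j) W); gam D] ≤
      C * (3 * ε * J.card) := by
  refine (bv2 J (fun j => Submodule.span ℝ {u j, u' j}) C hC (db2_sub hB) _ fun j hj => ?_).trans ?_
  · have ha : u j ∈ Submodule.span ℝ {u j, u' j} := Submodule.subset_span (by simp)
    have hb : u' j ∈ Submodule.span ℝ {u j, u' j} := Submodule.subset_span (by simp)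
    have h1 : u j ≠ 0 := norm_ne_zero_iff.1 (by rw [(hu j hj).1]; norm_num)
    have h3 : u' j ≠ 0 := norm_ne_zero_iff.1 (by rw [(hu j hj).2]; norm_num)
    have := (lim_sc ha hb h1 h3).add ((Lim.of_mem (Tf_mem ha hb hf)).mul (-1))
    simpa only [neg_mul, one_mul, ← sub_eq_add_neg] using this
  · refine mul_le_mul_of_nonneg_left ((Finset.sum_le_sum fun j hj =>
      var_sc_Tf hf h2 hε (hu j hj).1 (hu j hj).2).trans (le_of_eq ?_)) hC
    simp [mul_comm]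

theorem rowCMP : RowCMP := by
  intro ε hε
  obtain ⟨f, hf, h2, h3⟩ := exists_T (ε / 18) (by positivity)
  obtain ⟨K, hK, hM⟩ := mid hf hf
  refine ⟨K ^ 2, by positivity, fun D ι J u u' v v' C hC hun du dv => ?_⟩
  have h4 := hM D ι J u u' v v' C ⟨hC, hun, du, dv⟩
  have h5 := side hf h2 h3 hC du fun j hj => ⟨(hun j hj).1, (hun j hj).2.1⟩
  have h6 := side hf h2 h3 hC dv fun j hj => (hun j hj).2.2
  have m : ∀ a b : ι → ES D,
      MemLp (fun W => ∑ j ∈ J, (sc (a j) (b j) W - Tf f (a j) (b j) W)) 2 (gam D) := fun a b =>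
    memLp_finsetSum _ fun _ _ => (memLp_sc _ _).sub (CosP.memLp (Tf_mem (V := ⊤) trivial trivial hf))
  have m2 := (memLp_mid (J := J) (u := u) (u' := u') (v := v) (v' := v') hf hf).const_mul (-1 / 2)
  have e : (fun W => ∑ j ∈ J, (sc (u j) (u' j) W - sc (v j) (v' j) W)) = fun W =>
      (∑ j ∈ J, (sc (u j) (u' j) W - Tf f (u j) (u' j) W) -
        ∑ j ∈ J, (sc (v j) (v' j) W - Tf f (v j) (v' j) W)) +
      -1 / 2 * ∑ j ∈ J, (f ⟪u j, W⟫ * f ⟪u' j, W⟫ - f ⟪v j, W⟫ * f ⟪v' j, W⟫) := by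
    funext W
    rw [Finset.mul_sum, ← Finset.sum_sub_distrib, ← Finset.sum_add_distrib]
    exact Finset.sum_congr rfl fun j _ => by simp only [Tf]; ring
  have h7 := sd_add_le (P := gam D) ((m u u').sub (m v v')) m2
  have h8 := sd_sub_le (m u u') (m v v')
  have hS : 0 ≤ ∑ j ∈ J, (‖u j - v j‖ ^ 2 + ‖u' j - v' j‖ ^ 2) := by positivity
  rw [sd_mul] at h7
  simp only [Pi.sub_apply] at h7
  rw [e]
  have h9 := Real.sqrt_le_sqrt h5
  have h10 := Real.sqrt_le_sqrt h6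
  have a1 := Real.sq_sqrt (show 0 ≤ C * (3 * (ε / 18) * J.card) by positivity)
  have a2 := Real.sq_sqrt (mul_nonneg hC hS)
  have a3 : |(-1 / 2 : ℝ)| = 1 / 2 := by norm_num [abs_of_neg]
  rw [a3] at h7
  have h11 := h7.trans (show _ ≤ 2 * √(C * (3 * (ε / 18) * J.card)) +
    1 / 2 * (K * √(C * ∑ j ∈ J, (‖u j - v j‖ ^ 2 + ‖u' j - v' j‖ ^ 2))) from by
      exact add_le_add (h8.trans (by linarith)) (by linarith))
  have h12 := pow_le_pow_left₀ (Real.sqrt_nonneg _) h11 2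
  rw [Real.sq_sqrt (variance_nonneg _ _)] at h12
  refine h12.trans ?_
  generalize √(C * (3 * (ε / 18) * J.card)) = x at *
  generalize √(C * ∑ j ∈ J, (‖u j - v j‖ ^ 2 + ‖u' j - v' j‖ ^ 2)) = y at *
  have b1 : C * (ε * J.card + K ^ 2 * ∑ j ∈ J, (‖u j - v j‖ ^ 2 + ‖u' j - v' j‖ ^ 2)) =
      6 * x ^ 2 + (K * y) ^ 2 := by rw [mul_pow, a1, a2]; ring
  rw [b1]
  nlinarith [sq_nonneg (x - K * y), sq_nonneg x, sq_nonneg (K * y)]

end

end Pool.Agent.MP_f6b137_pr.H74
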