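import Pool.Agent.MP_f6b137_pr.H74.Base

/-! Variance of trigonometric functionals of a Gaussian vector. -/

namespace Pool.Agent.MP_f6b137_pr.H74

open MeasureTheory ProbabilityTheory Filter Topology
open scoped Real RealInnerProductSpace

noncomputable section

variable {D : ℕ}

def al (s : ℝ) (v : ES D) : ℝ := Real.exp (-(s * ‖v‖ ^ 2 / 2))

lemma al_pos (s : ℝ) (v : ES D) : 0 < al s v := Real.exp_pos _

lemma al_le_one {s : ℝ} (hs : 0 ≤ s) (v : ES D) : al s v ≤ 1 :=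
  Real.exp_le_one_iff.2 (neg_nonpos.2 (by positivity))

lemma int_bdd {f : ES D → ℝ} (hf : Continuous f) (M : ℝ) (h : ∀ x, |f x| ≤ M) :
    Integrable f (gam D) :=
  Integrable.of_bound hf.aestronglyMeasurable M (Eventually.of_forall h)

lemma int_cos (v : ES D) : ∫ W, Real.cos ⟪v, W⟫ ∂gam D = al 1 v := by
  have h := charFun_stdGaussian v
  rw [charFun_apply] at h
  have hi : Integrable (fun x : ES D => Complex.exp ((⟪x, v⟫ : ℝ) * Complex.I)) (gam D) :=
    Integrable.of_bound (Continuous.aestronglyMeasurable (by fun_prop)) 1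
      (Eventually.of_forall fun x => (Complex.norm_exp_ofReal_mul_I _).le)
  have h2 := integral_re hi
  rw [h] at h2
  simp only [RCLike.re_to_complex, Complex.exp_ofReal_mul_I_re, real_inner_comm v] at h2
  rw [h2, al]
  have : (-(‖v‖ : ℂ) ^ 2 / 2) = ((-(1 * ‖v‖ ^ 2 / 2) : ℝ) : ℂ) := by push_cast; ring
  rw [this, Complex.exp_ofReal_re]

lemma al_sub (u v : ES D) : al 1 (u - v) = al 1 u * al 1 v * Real.exp ⟪u, v⟫ := by
  unfold al
  rw [← Real.exp_add, ← Real.exp_add, norm_sub_sq_real]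
  congr 1; ring

lemma al_add (u v : ES D) : al 1 (u + v) = al 1 u * al 1 v * Real.exp (-⟪u, v⟫) := by
  unfold al
  rw [← Real.exp_add, ← Real.exp_add, norm_add_sq_real]
  congr 1; ring

lemma icos (v : ES D) : Integrable (fun W => Real.cos ⟪v, W⟫) (gam D) :=
  int_bdd (by fun_prop) 1 fun _ => Real.abs_cos_le_one _

lemma int_cos_cos (u v : ES D) :
    ∫ W, Real.cos ⟪u, W⟫ * Real.cos ⟪v, W⟫ ∂gam D = al 1 u * al 1 v * Real.cosh ⟪u, v⟫ := by
  have e : ∀ W : ES D, Real.cos ⟪u, W⟫ * Real.cos ⟪v, W⟫ =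
      (Real.cos ⟪u - v, W⟫ + Real.cos ⟪u + v, W⟫) / 2 := by
    intro W
    rw [inner_sub_left, inner_add_left, Real.cos_sub, Real.cos_add]; ring
  simp only [e]
  rw [integral_div, integral_add (icos _) (icos _), int_cos, int_cos, al_sub, al_add, Real.cosh_eq]
  ring

lemma int_sin_sin (u v : ES D) :
    ∫ W, Real.sin ⟪u, W⟫ * Real.sin ⟪v, W⟫ ∂gam D = al 1 u * al 1 v * Real.sinh ⟪u, v⟫ := by
  have e : ∀ W : ES D, Real.sin ⟪u, W⟫ * Real.sin ⟪v, W⟫ =
      (Real.cos ⟪u - v, W⟫ - Real.cos ⟪u + v, W⟫) / 2 := by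
    intro W
    rw [inner_sub_left, inner_add_left, Real.cos_sub, Real.cos_add]; ring
  simp only [e]
  rw [integral_div, integral_sub (icos _) (icos _), int_cos, int_cos, al_sub, al_add, Real.sinh_eq]
  ring

lemma al_scale {s : ℝ} (hs : 0 ≤ s) (v : ES D) : al (1 - s) v * al 1 (√s • v) = al 1 v := by
  unfold al
  rw [← Real.exp_add, norm_smul, mul_pow, Real.norm_eq_abs, sq_abs, Real.sq_sqrt hs]
  congr 1; ring

lemma inner_scale {s : ℝ} (hs : 0 ≤ s) (u v : ES D) : ⟪√s • u, √s • v⟫ = s * ⟪u, v⟫ := by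
  rw [real_inner_smul_left, real_inner_smul_right, ← mul_assoc, Real.mul_self_sqrt hs]

section fam

variable {α : Type} (A : Finset α) (c : α → ℝ) (v : α → ES D)

/-- the gradient field along the interpolation -/
def Gf (g : ℝ → ℝ) (s : ℝ) (W : ES D) : ES D :=
  ∑ a ∈ A, (c a * al (1 - s) (v a) * g ⟪√s • v a, W⟫) • v a

lemma norm_Gf (g : ℝ → ℝ) (s : ℝ) (W : ES D) : ‖Gf A c v g s W‖ ^ 2 =
    ∑ a ∈ A, ∑ b ∈ A, (c a * c b * al (1 - s) (v a) * al (1 - s) (v b) * ⟪v a, v b⟫) *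
      (g ⟪√s • v a, W⟫ * g ⟪√s • v b, W⟫) := by
  rw [← real_inner_self_eq_norm_sq, Gf, sum_inner]
  refine Finset.sum_congr rfl fun a _ => ?_
  rw [inner_sum]
  refine Finset.sum_congr rfl fun b _ => ?_
  rw [real_inner_smul_left (v a), real_inner_smul_right (v a)]
  ring

lemma int_gg {g : ℝ → ℝ} (hg : Continuous g) (h1 : ∀ x, |g x| ≤ 1) (u w : ES D) :
    Integrable (fun W => g ⟪u, W⟫ * g ⟪w, W⟫) (gam D) :=
  int_bdd (by fun_prop) 1 fun W => by
    rw [abs_mul]; exact mul_le_one₀ (h1 _) (abs_nonneg _) (h1 _)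

lemma int_Gf {g : ℝ → ℝ} (hg : Continuous g) (h1 : ∀ x, |g x| ≤ 1) (s : ℝ) :
    Integrable (fun W => ‖Gf A c v g s W‖ ^ 2) (gam D) := by
  simp only [norm_Gf]
  exact integrable_finsetSum _ fun a _ => integrable_finsetSum _ fun b _ =>
    (int_gg hg h1 _ _).const_mul _

lemma q_eq {g G : ℝ → ℝ} (hg : Continuous g) (h1 : ∀ x, |g x| ≤ 1)
    (hG : ∀ u w : ES D, ∫ W, g ⟪u, W⟫ * g ⟪w, W⟫ ∂gam D = al 1 u * al 1 w * G ⟪u, w⟫)
    {s : ℝ} (hs : 0 ≤ s) : ∫ W, ‖Gf A c v g s W‖ ^ 2 ∂gam D =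
      ∑ a ∈ A, ∑ b ∈ A, c a * c b * al 1 (v a) * al 1 (v b) * (⟪v a, v b⟫ * G (s * ⟪v a, v b⟫)) := by
  simp only [norm_Gf]
  rw [integral_finsetSum _ fun a _ => integrable_finsetSum _ fun b _ =>
    (int_gg hg h1 _ _).const_mul _]
  refine Finset.sum_congr rfl fun a _ => ?_
  rw [integral_finsetSum _ fun b _ => (int_gg hg h1 _ _).const_mul _]
  refine Finset.sum_congr rfl fun b _ => ?_
  rw [integral_const_mul, hG, inner_scale hs, ← al_scale hs (v a), ← al_scale hs (v b)]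
  ring

lemma int_q {G H : ℝ → ℝ} (hG : Continuous G) (hH : ∀ x, HasDerivAt H (G x) x) :
    ∫ s in (0 : ℝ)..1, ∑ a ∈ A, ∑ b ∈ A,
      c a * c b * al 1 (v a) * al 1 (v b) * (⟪v a, v b⟫ * G (s * ⟪v a, v b⟫)) =
    ∑ a ∈ A, ∑ b ∈ A, c a * c b * al 1 (v a) * al 1 (v b) * (H ⟪v a, v b⟫ - H 0) := by
  rw [intervalIntegral.integral_finsetSum fun a _ => Continuous.intervalIntegrable (by fun_prop) _ _]
  refine Finset.sum_congr rfl fun a _ => ?_
  rw [intervalIntegral.integral_finsetSum fun a _ => Continuous.intervalIntegrable (by fun_prop) _ _]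
  refine Finset.sum_congr rfl fun b _ => ?_
  rw [intervalIntegral.integral_const_mul]
  congr 1
  have := intervalIntegral.integral_eq_sub_of_hasDerivAt (a := 0) (b := 1)
    (f := fun s => H (s * ⟪v a, v b⟫)) (f' := fun s => ⟪v a, v b⟫ * G (s * ⟪v a, v b⟫))
    (fun s _ => by
      have h := (hH (s * ⟪v a, v b⟫)).comp s ((hasDerivAt_id s).mul_const ⟪v a, v b⟫)
      rw [one_mul, mul_comm] at h
      exact h)
    (Continuous.intervalIntegrable (by fun_prop) _ _)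
  simpa using this

/-- the quadratic form along the interpolation -/
def qf (G : ℝ → ℝ) (s : ℝ) : ℝ :=
  ∑ a ∈ A, ∑ b ∈ A, c a * c b * al 1 (v a) * al 1 (v b) * (⟪v a, v b⟫ * G (s * ⟪v a, v b⟫))

lemma cont_qf {G : ℝ → ℝ} (hG : Continuous G) : Continuous (qf A c v G) := by
  unfold qf; fun_prop

lemma memLp_cos (u : ES D) : MemLp (fun W => Real.cos ⟪u, W⟫) 2 (gam D) :=
  memLp_bdd (by fun_prop) 1 fun _ => Real.abs_cos_le_one _

lemma var_cos : Var[fun W => ∑ a ∈ A, c a * Real.cos ⟪v a, W⟫; gam D] =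
    ∫ s in (0 : ℝ)..1, qf A c v Real.sinh s := by
  unfold qf
  rw [int_q A c v Real.continuous_sinh Real.hasDerivAt_cosh,
    variance_fun_sum' fun a _ => (memLp_cos (v a)).const_mul _]
  refine Finset.sum_congr rfl fun a _ => Finset.sum_congr rfl fun b _ => ?_
  rw [covariance_const_mul_left, covariance_const_mul_right,
    covariance_eq_sub (memLp_cos _) (memLp_cos _)]
  simp only [Pi.mul_apply]
  rw [int_cos_cos, int_cos, int_cos, Real.cosh_zero]
  ring

lemma qf_sinh {s : ℝ} (hs : 0 ≤ s) :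
    qf A c v Real.sinh s = ∫ W, ‖Gf A c v Real.sin s W‖ ^ 2 ∂gam D :=
  (q_eq A c v Real.continuous_sin Real.abs_sin_le_one int_sin_sin hs).symm

lemma int_sin_sq : Integrable (fun W => (∑ a ∈ A, c a * Real.sin ⟪v a, W⟫) ^ 2) (gam D) :=
  (memLp_finsetSum A fun a _ => (memLp_bdd (f := fun W => Real.sin ⟪v a, W⟫) (by fun_prop) 1
    fun _ => Real.abs_sin_le_one _).const_mul (c a)).integrable_sq

/-- second moment of a sine sum -/
lemma sin_le (L : ℝ) (hL0 : 0 ≤ L) (hL : ∀ y : α → ℝ, ‖∑ a ∈ A, y a • v a‖ ^ 2 ≤ L * ∑ a ∈ A, y a ^ 2) :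
    ∫ W, (∑ a ∈ A, c a * Real.sin ⟪v a, W⟫) ^ 2 ∂gam D ≤ L * ∑ a ∈ A, c a ^ 2 := by
  have e : ∫ W, (∑ a ∈ A, c a * Real.sin ⟪v a, W⟫) ^ 2 ∂gam D =
      ∫ s in (0 : ℝ)..1, qf A c v Real.cosh s := by
    unfold qf
    rw [int_q A c v Real.continuous_cosh Real.hasDerivAt_sinh]
    have e1 : ∀ W : ES D, (∑ a ∈ A, c a * Real.sin ⟪v a, W⟫) ^ 2 =
        ∑ a ∈ A, ∑ b ∈ A, c a * c b * (Real.sin ⟪v a, W⟫ * Real.sin ⟪v b, W⟫) := by
      intro W
      rw [sq, Finset.sum_mul_sum]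
      exact Finset.sum_congr rfl fun _ _ => Finset.sum_congr rfl fun _ _ => by ring
    simp only [e1]
    have hi := fun u w : ES D => int_gg Real.continuous_sin Real.abs_sin_le_one u w
    rw [integral_finsetSum _ fun a _ => integrable_finsetSum _ fun b _ => (hi _ _).const_mul _]
    refine Finset.sum_congr rfl fun a _ => ?_
    rw [integral_finsetSum _ fun b _ => (hi _ _).const_mul _]
    refine Finset.sum_congr rfl fun b _ => ?_
    rw [integral_const_mul, int_sin_sin, Real.sinh_zero]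
    ring
  rw [e]
  have h2 := intervalIntegral.integral_mono_on (a := 0) (b := 1) (μ := volume) zero_le_one
    ((cont_qf A c v Real.continuous_cosh).intervalIntegrable _ _)
    (intervalIntegrable_const (c := L * ∑ a ∈ A, c a ^ 2)) fun s hs => by
      have := (q_eq A c v Real.continuous_cos Real.abs_cos_le_one int_cos_cos hs.1).symm
      unfold qf
      rw [this]
      refine (integral_mono (int_Gf A c v Real.continuous_cos Real.abs_cos_le_one s)
        (integrable_const (L * ∑ a ∈ A, c a ^ 2)) fun W => ?_).trans (by simp)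
      refine (hL _).trans (mul_le_mul_of_nonneg_left (Finset.sum_le_sum fun a _ => ?_) hL0)
      rw [mul_assoc, mul_pow]
      refine mul_le_of_le_one_right (sq_nonneg _) ((sq_le_one_iff_abs_le_one _).2 ?_)
      rw [abs_mul, abs_of_pos (al_pos _ _)]
      exact mul_le_one₀ (al_le_one (by linarith [hs.2]) _) (abs_nonneg _) (Real.abs_cos_le_one _)
  simpa using h2

end fam

/-- subadditivity of the variance for cosine sums with frequencies in a Bessel family -/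
lemma bv0 {ι : Type} (J : Finset ι) (V : ι → Submodule ℝ (ES D)) (C : ℝ)
    (hB : ∀ y : ι → ES D, (∀ j ∈ J, y j ∈ V j) → ‖∑ j ∈ J, y j‖ ^ 2 ≤ C * ∑ j ∈ J, ‖y j‖ ^ 2)
    {α : ι → Type} (A : ∀ j, Finset (α j)) (c : ∀ j, α j → ℝ) (v : ∀ j, α j → ES D)
    (hv : ∀ j ∈ J, ∀ a ∈ A j, v j a ∈ V j) :
    Var[fun W => ∑ j ∈ J, ∑ a ∈ A j, c j a * Real.cos ⟪v j a, W⟫; gam D] ≤
      C * ∑ j ∈ J, Var[fun W => ∑ a ∈ A j, c j a * Real.cos ⟪v j a, W⟫; gam D] := by
  simp only [Finset.sum_sigma']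
  rw [var_cos (J.sigma A) (fun x => c x.1 x.2) (fun x => v x.1 x.2)]
  simp only [var_cos]
  rw [← intervalIntegral.integral_finsetSum fun j _ =>
    (cont_qf _ _ _ Real.continuous_sinh).intervalIntegrable _ _,
    ← intervalIntegral.integral_const_mul]
  refine intervalIntegral.integral_mono_on zero_le_one
    ((cont_qf _ _ _ Real.continuous_sinh).intervalIntegrable _ _)
    (Continuous.intervalIntegrable (continuous_const.mul (continuous_finsetSum _ fun j _ =>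
      cont_qf _ _ _ Real.continuous_sinh)) _ _) fun s hs => ?_
  simp only [qf_sinh _ _ _ hs.1]
  have hi := fun j => int_Gf (A j) (c j) (v j) Real.continuous_sin Real.abs_sin_le_one s
  rw [← integral_finsetSum _ fun j _ => hi j, ← integral_const_mul]
  refine integral_mono (int_Gf _ _ _ Real.continuous_sin Real.abs_sin_le_one s)
    ((integrable_finsetSum _ fun j _ => hi j).const_mul _) fun W => ?_
  have e : Gf (J.sigma A) (fun x => c x.1 x.2) (fun x => v x.1 x.2) Real.sin s W =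
      ∑ j ∈ J, Gf (A j) (c j) (v j) Real.sin s W := by
    unfold Gf; rw [Finset.sum_sigma']
  simp only [e]
  exact hB _ fun j hj => Submodule.sum_mem _ fun a ha => Submodule.smul_mem _ _ (hv j hj a ha)

lemma abs_exp_neg_sub {p q : ℝ} (hp : 0 ≤ p) (hq : 0 ≤ q) :
    |Real.exp (-p) - Real.exp (-q)| ≤ |p - q| := by
  have key : ∀ p q : ℝ, 0 ≤ p → p ≤ q → Real.exp (-p) - Real.exp (-q) ≤ q - p := by
    intro p q hp hpq
    have h1 : Real.exp (-q) = Real.exp (-p) * Real.exp (p - q) := by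
      rw [← Real.exp_add]; congr 1; ring
    have h2 := Real.add_one_le_exp (p - q)
    have h3 : Real.exp (-p) ≤ 1 := Real.exp_le_one_iff.2 (by linarith)
    have h4 := Real.exp_pos (-p)
    rw [h1]
    nlinarith
  rcases le_total p q with h | h
  · have h1 : Real.exp (-q) ≤ Real.exp (-p) := Real.exp_le_exp.2 (by linarith)
    rw [abs_of_nonneg (by linarith), abs_of_nonpos (by linarith)]
    linarith [key p q hp h]
  · have h1 : Real.exp (-p) ≤ Real.exp (-q) := Real.exp_le_exp.2 (by linarith)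
    rw [abs_of_nonpos (by linarith), abs_of_nonneg (by linarith)]
    linarith [key q p hq h]

lemma abs_al_sub {s Λ : ℝ} (h0 : 0 ≤ s) (h1 : s ≤ 1) {x z : ES D} (hx : ‖x‖ ≤ Λ) (hz : ‖z‖ ≤ Λ) :
    |al s x - al s z| ≤ Λ * ‖x - z‖ := by
  refine (abs_exp_neg_sub (by positivity) (by positivity)).trans ?_
  have e : s * ‖x‖ ^ 2 / 2 - s * ‖z‖ ^ 2 / 2 = s * ((‖x‖ + ‖z‖) / 2) * (‖x‖ - ‖z‖) := by ring
  rw [e, abs_mul, abs_of_nonneg (by positivity)]
  refine mul_le_mul ?_ (abs_norm_sub_norm_le _ _) (abs_nonneg _) ((norm_nonneg _).trans hx)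
  have := norm_nonneg x
  have := norm_nonneg z
  nlinarith

/-- comparison of two cosine sums with close frequencies -/
lemma cc {ι : Type} (J : Finset ι) (x z : ι → ES D) (L Λ : ℝ) (hL0 : 0 ≤ L)
    (hx : ∀ y : ι → ℝ, ‖∑ j ∈ J, y j • x j‖ ^ 2 ≤ L * ∑ j ∈ J, y j ^ 2)
    (hz : ∀ y : ι → ℝ, ‖∑ j ∈ J, y j • z j‖ ^ 2 ≤ L * ∑ j ∈ J, y j ^ 2)
    (hΛ : ∀ j ∈ J, ‖x j‖ ≤ Λ ∧ ‖z j‖ ≤ Λ) :
    Var[fun W => ∑ j ∈ J, (Real.cos ⟪x j, W⟫ - Real.cos ⟪z j, W⟫); gam D] ≤
      L * (4 * Λ ^ 2 + 6) * ∑ j ∈ J, ‖x j - z j‖ ^ 2 := by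
  have e0 : (fun W => ∑ j ∈ J, (Real.cos ⟪x j, W⟫ - Real.cos ⟪z j, W⟫)) =
      fun W => ∑ a ∈ J.disjSum J, Sum.elim (fun _ => (1 : ℝ)) (fun _ => -1) a *
        Real.cos ⟪Sum.elim x z a, W⟫ := by
    funext W
    rw [Finset.sum_disjSum, Finset.sum_sub_distrib]
    simp [sub_eq_add_neg]
  rw [e0, var_cos]
  have h2 := intervalIntegral.integral_mono_on (a := 0) (b := 1) (μ := volume) zero_le_one
    ((cont_qf (J.disjSum J) (Sum.elim (fun _ => (1 : ℝ)) (fun _ => -1)) (Sum.elim x z)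
      Real.continuous_sinh).intervalIntegrable _ _)
    (intervalIntegrable_const (c := L * (4 * Λ ^ 2 + 6) * ∑ j ∈ J, ‖x j - z j‖ ^ 2)) ?_
  · simpa using h2
  intro s hs
  rw [qf_sinh _ _ _ hs.1]
  have hs1 : √s ≤ 1 := Real.sqrt_le_one.2 hs.2
  have hs0 : 0 ≤ 1 - s := by linarith [hs.2]
  set a : ι → ES D → ℝ := fun j W => al (1 - s) (x j) * Real.sin ⟪√s • x j, W⟫ with ha
  set b : ι → ES D → ℝ := fun j W => al (1 - s) (z j) * Real.sin ⟪√s • z j, W⟫ with hb
  have e1 : ∀ W, Gf (J.disjSum J) (Sum.elim (fun _ => (1 : ℝ)) (fun _ => -1)) (Sum.elim x z)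
      Real.sin s W = ∑ j ∈ J, (a j W - b j W) • x j + ∑ j ∈ J, b j W • (x j - z j) := by
    intro W
    unfold Gf
    rw [Finset.sum_disjSum, ← Finset.sum_add_distrib, ← Finset.sum_add_distrib]
    refine Finset.sum_congr rfl fun j _ => ?_
    simp only [Sum.elim_inl, Sum.elim_inr, ha, hb, one_mul]
    module
  have hab : ∀ j ∈ J, ∀ W, (a j W - b j W) ^ 2 ≤
      2 * Λ ^ 2 * ‖x j - z j‖ ^ 2 + 2 * ⟪x j - z j, W⟫ ^ 2 := by
    intro j hj W
    have h1 := abs_al_sub hs0 (by linarith [hs.1]) (hΛ j hj).1 (hΛ j hj).2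
    have h2 : |Real.sin ⟪√s • x j, W⟫ - Real.sin ⟪√s • z j, W⟫| ≤ |⟪x j - z j, W⟫| := by
      refine (Real.abs_sin_sub_sin_le _ _).trans ?_
      rw [real_inner_smul_left, real_inner_smul_left, ← mul_sub, ← inner_sub_left, abs_mul,
        abs_of_nonneg (Real.sqrt_nonneg _)]
      exact mul_le_of_le_one_left (abs_nonneg _) hs1
    have e : a j W - b j W = (al (1 - s) (x j) - al (1 - s) (z j)) * Real.sin ⟪√s • x j, W⟫ +
        al (1 - s) (z j) * (Real.sin ⟪√s • x j, W⟫ - Real.sin ⟪√s • z j, W⟫) := by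
      simp only [ha, hb]; ring
    have h3 : |a j W - b j W| ≤ Λ * ‖x j - z j‖ + |⟪x j - z j, W⟫| := by
      rw [e]
      refine (abs_add_le _ _).trans (add_le_add ?_ ?_)
      · rw [abs_mul]
        exact (mul_le_of_le_one_right (abs_nonneg _) (Real.abs_sin_le_one _)).trans h1
      · rw [abs_mul, abs_of_pos (al_pos _ _)]
        exact (mul_le_of_le_one_left (abs_nonneg _) (al_le_one hs0 _)).trans h2
    have h4 := pow_le_pow_left₀ (abs_nonneg _) h3 2
    rw [sq_abs] at h4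
    nlinarith [sq_nonneg (Λ * ‖x j - z j‖ - |⟪x j - z j, W⟫|), sq_abs ⟪x j - z j, W⟫]
  have e2 : ∀ W, ‖∑ j ∈ J, b j W • (x j - z j)‖ ^ 2 =
      ∑ k, (∑ j ∈ J, (al (1 - s) (z j) * (x j - z j) k) * Real.sin ⟪√s • z j, W⟫) ^ 2 := by
    intro W
    rw [EuclideanSpace.real_norm_sq_eq]
    refine Finset.sum_congr rfl fun k _ => ?_
    congr 1
    rw [WithLp.ofLp_sum, Finset.sum_apply]
    refine Finset.sum_congr rfl fun j _ => ?_
    simp only [hb, PiLp.smul_apply, smul_eq_mul]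
    ring
  have hzs : ∀ y : ι → ℝ, ‖∑ j ∈ J, y j • (√s • z j)‖ ^ 2 ≤ L * ∑ j ∈ J, y j ^ 2 := by
    intro y
    simp only [smul_smul]
    refine (hz _).trans (mul_le_mul_of_nonneg_left (Finset.sum_le_sum fun j _ => ?_) hL0)
    rw [mul_pow, Real.sq_sqrt hs.1]
    exact mul_le_of_le_one_right (sq_nonneg _) hs.2
  have i1 : ∀ j, Integrable (fun W => 2 * Λ ^ 2 * ‖x j - z j‖ ^ 2 + 2 * ⟪x j - z j, W⟫ ^ 2) (gam D) :=
    fun j => (integrable_const _).add ((memLp_inner _).integrable_sq.const_mul _)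
  have i2 := fun k : Fin D => int_sin_sq J (fun j => al (1 - s) (z j) * (x j - z j) k)
    fun j => √s • z j
  have i3 := (integrable_finsetSum J fun j _ => i1 j).const_mul (2 * L)
  have i4 := (integrable_finsetSum Finset.univ fun k _ => i2 k).const_mul 2
  refine (integral_mono (int_Gf _ _ _ Real.continuous_sin Real.abs_sin_le_one s) (i3.add i4)
    fun W => ?_).trans ?_
  · simp only [Pi.add_apply, e1]
    rw [← e2]
    have h1 := (hx fun j => a j W - b j W).trans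
      (mul_le_mul_of_nonneg_left (Finset.sum_le_sum fun j hj => hab j hj W) hL0)
    have h2 := norm_add_le (∑ j ∈ J, (a j W - b j W) • x j) (∑ j ∈ J, b j W • (x j - z j))
    have h3 := pow_le_pow_left₀ (norm_nonneg _) h2 2
    nlinarith [sq_nonneg (‖∑ j ∈ J, (a j W - b j W) • x j‖ - ‖∑ j ∈ J, b j W • (x j - z j)‖)]
  · simp only [Pi.add_apply]
    rw [integral_add i3 i4, integral_const_mul, integral_const_mul,
      integral_finsetSum _ fun j _ => i1 j, integral_finsetSum _ fun k _ => i2 k]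
    have h1 : ∀ j ∈ J, ∫ W, (2 * Λ ^ 2 * ‖x j - z j‖ ^ 2 + 2 * ⟪x j - z j, W⟫ ^ 2) ∂gam D =
        (2 * Λ ^ 2 + 2) * ‖x j - z j‖ ^ 2 := by
      intro j _
      rw [integral_add (integrable_const _) ((memLp_inner _).integrable_sq.const_mul _),
        integral_const_mul 2, integral_inner_sq]
      simp; ring
    rw [Finset.sum_congr rfl h1, ← Finset.mul_sum]
    have h2 : ∑ k, ∫ W, (∑ j ∈ J, (al (1 - s) (z j) * (x j - z j) k) *
        Real.sin ⟪√s • z j, W⟫) ^ 2 ∂gam D ≤ L * ∑ j ∈ J, ‖x j - z j‖ ^ 2 := by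
      refine (Finset.sum_le_sum fun k _ => sin_le J _ _ L hL0 hzs).trans ?_
      rw [← Finset.mul_sum, Finset.sum_comm]
      refine mul_le_mul_of_nonneg_left (Finset.sum_le_sum fun j _ => ?_) hL0
      rw [EuclideanSpace.real_norm_sq_eq]
      refine Finset.sum_le_sum fun k _ => ?_
      rw [mul_pow]
      exact mul_le_of_le_one_left (sq_nonneg _) (pow_le_one₀ (al_pos _ _).le (al_le_one hs0 _))
    linarith

end

end Pool.Agent.MP_f6b137_pr.H74
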