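import Mathlib

/-! Statements: variance and central limit theorem for the number of real zeros of random
orthogonal polynomials, doubling measures. -/

namespace Pool.Agent.MP_f6b137_pr.H74

open MeasureTheory ProbabilityTheory Filter Topology Polynomial
open scoped Real RealInnerProductSpace

noncomputable section

abbrev ES (D : ℕ) := EuclideanSpace ℝ (Fin D)
abbrev gam (D : ℕ) : Measure (ES D) := stdGaussian (ES D)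
abbrev piG (B : ℕ) : Measure (Fin B → ℝ) := Measure.pi fun _ => gaussianReal 0 1

/-- indicator of a sign change -/
def chg (x y : ℝ) : ℝ := if x * y < 0 then 1 else 0

def sc {D : ℕ} (u v W : ES D) : ℝ := chg ⟪u, W⟫ ⟪v, W⟫

/-- the first `m` vectors are orthonormal -/
def ONf {D : ℕ} (e : ℕ → ES D) (m : ℕ) : Prop :=
  ∀ j < m, ∀ k < m, ⟪e j, e k⟫ = if j = k then (1 : ℝ) else 0

/-- the coordinates of block `b` -/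
def blk {D : ℕ} (e : ℕ → ES D) (B b : ℕ) (W : ES D) : Fin B → ℝ := fun i => ⟪e (b * B + i), W⟫

/-- dual Bessel inequality for planes -/
def DB2 {D : ℕ} {ι : Type} (J : Finset ι) (a b : ι → ES D) (C : ℝ) : Prop :=
  ∀ α β : ι → ℝ, ‖∑ j ∈ J, (α j • a j + β j • b j)‖ ^ 2 ≤ C * ∑ j ∈ J, ‖α j • a j + β j • b j‖ ^ 2

/-- dual Bessel inequality for three dimensional spaces -/
def DB3 {D : ℕ} {ι : Type} (J : Finset ι) (a b c : ι → ES D) (C : ℝ) : Prop :=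
  ∀ α β γ : ι → ℝ, ‖∑ j ∈ J, (α j • a j + β j • b j + γ j • c j)‖ ^ 2 ≤
    C * ∑ j ∈ J, ‖α j • a j + β j • b j + γ j • c j‖ ^ 2

/-! ### Gaussian rows -/

def RowBV : Prop :=
  ∀ (D : ℕ) (ι : Type) (J : Finset ι) (a b c : ι → ES D) (C κ₁ κ₂ κ₃ : ℝ), 0 ≤ C →
    (∀ j ∈ J, a j ≠ 0 ∧ b j ≠ 0 ∧ c j ≠ 0) → DB3 J a b c C →
    Var[fun W => ∑ j ∈ J, (κ₁ * sc (a j) (b j) W + κ₂ * sc (b j) (c j) W + κ₃ * sc (a j) (c j) W);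
        gam D] ≤
      C * ∑ j ∈ J, Var[fun W => κ₁ * sc (a j) (b j) W + κ₂ * sc (b j) (c j) W +
        κ₃ * sc (a j) (c j) W; gam D]

def RowCMP : Prop :=
  ∀ ε : ℝ, 0 < ε → ∃ K : ℝ, 0 ≤ K ∧
    ∀ (D : ℕ) (ι : Type) (J : Finset ι) (u u' v v' : ι → ES D) (C : ℝ), 0 ≤ C →
      (∀ j ∈ J, ‖u j‖ = 1 ∧ ‖u' j‖ = 1 ∧ ‖v j‖ = 1 ∧ ‖v' j‖ = 1) → DB2 J u u' C → DB2 J v v' C →
      Var[fun W => ∑ j ∈ J, (sc (u j) (u' j) W - sc (v j) (v' j) W); gam D] ≤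
        C * (ε * J.card + K * ∑ j ∈ J, (‖u j - v j‖ ^ 2 + ‖u' j - v' j‖ ^ 2))

/-- small balls and tails -/
structure RowSB : Prop where
  one : ∀ (D : ℕ) (u : ES D) (κ s : ℝ), 0 < κ → κ ≤ ‖u‖ → 0 ≤ s →
    (gam D).real {W | |⟪u, W⟫| ≤ s} ≤ s / κ
  null : ∀ (D : ℕ) (u : ES D), u ≠ 0 → gam D {W | ⟪u, W⟫ = (0 : ℝ)} = 0
  two : ∀ (D : ℕ) (a b : ES D) (κ s t : ℝ), 0 < κ → 0 ≤ s → 0 ≤ t →
    (∀ α β : ℝ, κ ^ 2 * (α ^ 2 + β ^ 2) ≤ ‖α • a + β • b‖ ^ 2) →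
    (gam D).real {W | |⟪a, W⟫| ≤ s ∧ |⟪b, W⟫| ≤ t} ≤ s * t / κ ^ 2
  tail : ∃ C₀ : ℝ, 0 ≤ C₀ ∧ ∀ (D : ℕ) (u : ES D) (t : ℝ), 0 < t →
    (gam D).real {W | t ≤ |⟪u, W⟫|} ≤ C₀ * ‖u‖ ^ 10 / t ^ 10
  coef : ∀ (D m : ℕ) (φ : ℕ → ES D) (t : ℝ), 0 < t → ONf φ m →
    (gam D).real {W | t ≤ ∑ k ∈ Finset.range m, ⟪φ k, W⟫ ^ 2} ≤ m / t
  norm : ∀ (D : ℕ) (t : ℝ), 0 < t → (gam D).real {W | t ≤ ‖W‖} ≤ D / t ^ 2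

/-- blocks of an orthonormal family are independent standard Gaussian vectors -/
def RowIND : Prop :=
  ∀ (D B m : ℕ) (e : ℕ → ES D), ONf e (m * B) →
    iIndepFun (fun b : Fin m => blk e B b) (gam D) ∧
      ∀ b < m, (gam D).map (blk e B b) = piG B

/-- covariance of a thin sign change event with a quadratic form -/
def RowTHIN : Prop :=
  ∃ c₁ : ℝ, 0 < c₁ ∧ ∀ (D : ℕ) (v v' : ES D), ‖v‖ = 1 → ‖v'‖ = 1 → v' ≠ v → ‖v' - v‖ ≤ 1 / 2 →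
    ∃ κ₁ κ₂ : ℝ, |κ₁| ≤ ‖v' - v‖ ∧ c₁ ≤ κ₂ * ‖v' - v‖ ∧ ∀ a b : ES D,
      cov[sc v v', fun W => ⟪a, W⟫ * ⟪b, W⟫; gam D] =
        κ₁ * (⟪a, v + v'⟫ * ⟪b, v + v'⟫) + κ₂ * (⟪a, v' - v⟫ * ⟪b, v' - v⟫)

/-! ### The measure in the angular variable -/

structure Dbl (μ : Measure ℝ) (C : ℝ) (s : ℕ) : Prop where
  fin : IsFiniteMeasure μ
  supp : μ (Set.Icc 0 π)ᶜ = 0
  pos : 0 < μ.real Set.univ
  dbl : ∀ θ ∈ Set.Icc 0 π, ∀ δ Λ : ℝ, 0 < δ → 1 ≤ Λ →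
    μ.real (Metric.closedBall θ (Λ * δ)) ≤ C * Λ ^ s * μ.real (Metric.ball θ δ)

structure ONP (μ : Measure ℝ) (p : ℕ → ℝ[X]) : Prop where
  deg : ∀ k, (p k).natDegree = k
  on : ∀ j k, ∫ θ, (p j).eval (Real.cos θ) * (p k).eval (Real.cos θ) ∂μ =
    if j = k then (1 : ℝ) else 0

/-- centre of the cell `[j π / N, (j + 1) π / N]` -/
def ctr (N j : ℕ) : ℝ := ((j : ℝ) + 1 / 2) * π / N

/-- mass near the cell -/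
def mass (μ : Measure ℝ) (N j : ℕ) : ℝ := μ.real (Metric.ball (ctr N j) (π / N))

def Rng (N n : ℕ) : Prop := N ≤ n + 1 ∧ n ≤ 2 * N

/-- the random polynomial -/
def Pw {D : ℕ} (p : ℕ → ℝ[X]) (n : ℕ) (φ : ℕ → ES D) (W : ES D) : ℝ[X] :=
  ∑ k ∈ Finset.range (n + 1), C ⟪φ k, W⟫ * p k

/-- the evaluation vector at the point `cos (π t / N)` -/
def Kt {D : ℕ} (p : ℕ → ℝ[X]) (n N : ℕ) (φ : ℕ → ES D) (t : ℝ) : ES D :=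
  ∑ k ∈ Finset.range (n + 1), (p k).eval (Real.cos (π * t / N)) • φ k

/-- number of real zeros -/
def cnt (p : ℕ → ℝ[X]) (n : ℕ) (c : Fin (n + 1) → ℝ) : ℝ :=
  ((∑ k : Fin (n + 1), C (c k) * p k).roots.toFinset.card : ℝ)

/-- Marcinkiewicz-Zygmund inequality with local complex maxima -/
def RowMZ : Prop :=
  ∀ (μ : Measure ℝ) (C₀ : ℝ) (s : ℕ), Dbl μ C₀ s → ∃ A : ℝ, 0 ≤ A ∧
    ∀ (N : ℕ) (f : ℝ[X]), 1 ≤ N → f.natDegree ≤ 2 * N → ∃ S : ℕ → ℝ,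
      (∀ j < N, ∀ ζ : ℂ, ‖ζ - ctr N j‖ ≤ 2 * π / N → ‖aeval (Complex.cos ζ) f‖ ^ 2 ≤ S j) ∧
      ∑ j ∈ Finset.range N, mass μ N j * S j ≤ A * ∫ θ, f.eval (Real.cos θ) ^ 2 ∂μ

/-- peak polynomials -/
def RowPEAK : Prop :=
  ∀ (μ : Measure ℝ) (C₀ : ℝ) (s : ℕ), Dbl μ C₀ s → ∃ (A : ℝ) (N₀ : ℕ), 0 ≤ A ∧
    ∀ N j : ℕ, N₀ ≤ N → j < N → ∃ g : ℝ[X], g.natDegree + 3 ≤ N ∧
      (∀ θ : ℝ, |θ - ctr N j| ≤ π / (2 * N) → 1 ≤ g.eval (Real.cos θ)) ∧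
      ∫ θ, g.eval (Real.cos θ) ^ 2 * (1 + N * |θ - ctr N j|) ^ 8 ∂μ ≤ A * mass μ N j

/-- first difference -/
def dd1 {D : ℕ} (K : ℝ → ES D) (lam t h : ℝ) : ES D := (lam / (2 * h)) • (K (t + h) - K (t - h))

/-- second difference -/
def dd2 {D : ℕ} (K : ℝ → ES D) (lam t h : ℝ) : ES D :=
  (lam / h ^ 2) • (K (t + h) - (2 : ℝ) • K t + K (t - h))

/-- nondegeneracy and Bessel inequality for triples of points -/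
structure WH {D : ℕ} (K : ℝ → ES D) (N : ℕ) (κ A : ℝ) : Prop where
  ne : ∀ t, K t ≠ 0
  low : ∀ j : ℕ, 1 ≤ j → j + 2 ≤ N → ∃ lam : ℝ, 0 < lam ∧
    ∀ t h : ℝ, 0 < h → (j : ℝ) ≤ t - h → t + h ≤ j + 1 →
      (∀ α β γ : ℝ, κ ^ 2 * (α ^ 2 + β ^ 2 + γ ^ 2) ≤
        ‖α • (lam • K t) + β • dd1 K lam t h + γ • dd2 K lam t h‖ ^ 2) ∧ ‖dd2 K lam t h‖ ≤ A
  db : ∀ (ι : Type) (J : Finset ι) (cell : ι → ℕ) (t h : ι → ℝ) (L : ℕ),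
    (∀ i ∈ J, 1 ≤ cell i ∧ cell i + 2 ≤ N ∧ 0 < h i ∧ (cell i : ℝ) ≤ t i - h i ∧
      t i + h i ≤ cell i + 1) →
    (∀ j, (J.filter fun i => cell i = j).card ≤ L) →
    DB3 J (fun i => K (t i - h i)) (fun i => K (t i)) (fun i => K (t i + h i)) (A * L)

def RowWH : Prop :=
  ∀ (μ : Measure ℝ) (C₀ : ℝ) (s : ℕ) (p : ℕ → ℝ[X]), Dbl μ C₀ s → ONP μ p →
    ∃ (κ A : ℝ) (N₀ : ℕ), 0 < κ ∧ 0 ≤ A ∧
      ∀ (N n D : ℕ) (φ : ℕ → ES D), N₀ ≤ N → Rng N n → ONf φ (n + 1) → WH (Kt p n N φ) N κ A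

/-- sign changes on the dyadic grid of level `l` -/
def Sl {D : ℕ} (K : ℝ → ES D) (N l : ℕ) (W : ES D) : ℝ :=
  ∑ j ∈ Finset.Ico 1 (N - 1), ∑ k ∈ Finset.range (2 ^ l),
    sc (K (j + k / 2 ^ l)) (K (j + (k + 1) / 2 ^ l)) W

def RowTEL : Prop :=
  ∀ κ A : ℝ, 0 < κ → 0 ≤ A → ∃ A' r : ℝ, 0 ≤ A' ∧ 0 ≤ r ∧ r < 1 ∧
    ∀ (D N : ℕ) (K : ℝ → ES D), WH K N κ A → ∀ l : ℕ,
      √(Var[fun W => Sl K N (l + 1) W - Sl K N l W; gam D]) ≤ A' * √N * r ^ l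

open Classical in
def RowMIS : Prop :=
  ∀ (p : ℕ → ℝ[X]) (n N D : ℕ) (φ : ℕ → ES D) (κ A : ℝ), (∀ k, (p k).natDegree = k) → 0 < κ →
    2 ≤ N → WH (Kt p n N φ) N κ A →
    (∀ l W, Sl (Kt p n N φ) N l W ≤ n) ∧ ∀ ε : ℝ, 0 < ε → ∀ᶠ l : ℕ in atTop,
      (gam D).real {W | Sl (Kt p n N φ) N l W ≠
        (((Pw p n φ W).roots.toFinset.filter fun x => |x| < Real.cos (π / N)).card : ℝ)} ≤ ε

open Classical in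
/-- deterministic bound for the zeros near and beyond the right end point -/
def RowOUT0 : Prop :=
  ∀ (N n L m : ℕ) (f : ℝ[X]) (S : ℝ), 13 ≤ N → n ≤ 2 * N → f.natDegree ≤ n → N ≤ 2 ^ L →
    (∀ x ∈ Set.Icc (-1 : ℝ) 1, |f.eval x| ≤ S) →
    (∀ c : ℝ, (c = 1 ∨ ∃ i < L, c = 1 - 3 / 4 / 2 ^ i) →
      Real.exp 48 * S < 2 ^ m * |c ^ n * f.eval ((c + c⁻¹) / 2)|) →
    (f.roots.toFinset.filter fun x => Real.cos (π / N) ≤ x).card ≤ (L + 1) * m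

open Classical in
def RowOUT : Prop :=
  ∀ (μ : Measure ℝ) (C₀ : ℝ) (s : ℕ) (p : ℕ → ℝ[X]), Dbl μ C₀ s → ONP μ p →
    ∀ ε : ℝ, 0 < ε → ∃ N₀ : ℕ, ∀ (N n D : ℕ) (φ : ℕ → ES D), N₀ ≤ N → Rng N n → ONf φ (n + 1) →
      (gam D).real {W | ε * n <
        (((Pw p n φ W).roots.toFinset.filter fun x => Real.cos (π / N) ≤ |x|).card : ℝ) ^ 2} ≤
        1 / (n : ℝ) ^ 2

def RowSTEPA : Prop :=
  ∀ (μ : Measure ℝ) (C₀ : ℝ) (s : ℕ) (p : ℕ → ℝ[X]), Dbl μ C₀ s → ONP μ p →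
    ∀ ε : ℝ, 0 < ε → ∃ l₀ N₀ : ℕ, ∀ (l N n D : ℕ) (φ : ℕ → ES D), l₀ ≤ l → N₀ ≤ N → Rng N n →
      ONf φ (n + 1) →
      Var[fun W => cnt p n (blk φ (n + 1) 0 W) - Sl (Kt p n N φ) N l W; gam D] ≤ ε * n

/-! ### The model -/

/-- the kernel of the model -/
def sk (t : ℝ) (i : ℕ) : ℝ := Real.sinc (π * (t - i - 1 / 2))

def Ym {B : ℕ} (ξ : Fin B → ℝ) (t : ℝ) : ℝ := ∑ i : Fin B, sk t i * ξ i

/-- sign changes of the model process in the interior of a block -/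
def Gm (l R B : ℕ) (ξ : Fin B → ℝ) : ℝ :=
  ∑ j ∈ Finset.Ico R (B - R), ∑ k ∈ Finset.range (2 ^ l),
    chg (Ym ξ (j + k / 2 ^ l)) (Ym ξ (j + (k + 1) / 2 ^ l))

def Vb {D : ℕ} (e : ℕ → ES D) (B b : ℕ) (t : ℝ) : ES D :=
  ∑ i ∈ Finset.range B, sk t i • e (b * B + i)

structure RowSINC : Prop where
  tail : ∀ (t R : ℝ) (S : Finset ℕ), 1 ≤ R → (∀ i ∈ S, R ≤ |t - i|) →
    ∑ i ∈ S, 1 / (t - i) ^ 2 ≤ 4 / R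
  gram : ∀ (t t' R : ℝ) (B : ℕ), 1 ≤ R → R ≤ t → R ≤ t' → t + R ≤ B → t' + R ≤ B →
    |∑ i ∈ Finset.range B, sk t i * sk t' i - Real.sinc (π * (t - t'))| ≤ 1 / R
  bessel : ∀ (τ : ℝ) (B : ℕ) (T : Finset ℕ) (c : ℕ → ℝ),
    ∑ i ∈ Finset.range B, (∑ j ∈ T, c j * sk (j + τ) i) ^ 2 ≤ ∑ j ∈ T, c j ^ 2

/-- fundamental polynomials of interpolation at the Chebyshev nodes -/
structure Cheb (ell : ℕ → ℕ → ℝ[X]) : Prop where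
  deg : ∀ N i, i < N → (ell N i).natDegree < N
  orth : ∀ N i j, i < N → j < N →
    ∫ θ in (0 : ℝ)..π, (ell N i).eval (Real.cos θ) * (ell N j).eval (Real.cos θ) =
      if i = j then π / N else 0
  decay : ∀ (N i : ℕ) (t : ℝ), i < N → 0 ≤ t → t ≤ N →
    |(ell N i).eval (Real.cos (π * t / N))| * |t - i - 1 / 2| ≤ 1
  sum : ∀ (N : ℕ) (θ : ℝ), 0 ≤ θ → θ ≤ π →
    ∑ i ∈ Finset.range N, (ell N i).eval (Real.cos θ) ^ 2 ≤ 50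
  sinc : ∀ (N i : ℕ) (t J : ℝ), i < N → 0 < J → J ≤ t → t + J ≤ N →
    |(ell N i).eval (Real.cos (π * t / N)) - sk t i| ≤ 3 / J

def RowCHEB : Prop := ∃ ell, Cheb ell

def Vt {D : ℕ} (ell : ℕ → ℕ → ℝ[X]) (e : ℕ → ES D) (N : ℕ) (t : ℝ) : ES D :=
  ∑ i ∈ Finset.range N, (ell N i).eval (Real.cos (π * t / N)) • e i

/-- approximation of the inverse square root of the density by a polynomial -/
def RowDENS : Prop :=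
  ∀ (μ : Measure ℝ), IsFiniteMeasure μ → μ (Set.Icc 0 π)ᶜ = 0 → μ ≪ volume →
    volume.restrict (Set.Icc 0 π) ≪ μ → ∃ ρ : ℝ → ℝ, Measurable ρ ∧ (∀ θ, 0 ≤ ρ θ) ∧
      IntegrableOn (fun θ => ρ θ ^ 2) (Set.Icc 0 π) ∧
      (∀ (g : ℝ → ℝ) (T : Set ℝ), MeasurableSet T → T ⊆ Set.Icc 0 π →
        ∫ θ in T, g θ ∂μ = ∫ θ in T, ρ θ ^ 2 * g θ) ∧
      ∀ η : ℝ, 0 < η → ∃ q : ℝ[X],
        ∫ θ in Set.Icc 0 π, (1 - ρ θ * q.eval (Real.cos θ)) ^ 2 ≤ η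

/-- the coupling in mean square -/
def RowCOUP0 : Prop :=
  ∀ (μ : Measure ℝ) (p : ℕ → ℝ[X]) (ell : ℕ → ℕ → ℝ[X]) (ρ : ℝ → ℝ) (q : ℝ[X]) (n N : ℕ),
    IsFiniteMeasure μ → μ (Set.Icc 0 π)ᶜ = 0 → ONP μ p → Cheb ell → Measurable ρ →
    IntegrableOn (fun θ => ρ θ ^ 2) (Set.Icc 0 π) →
    (∀ (g : ℝ → ℝ) (T : Set ℝ), MeasurableSet T → T ⊆ Set.Icc 0 π →
      ∫ θ in T, g θ ∂μ = ∫ θ in T, ρ θ ^ 2 * g θ) →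
    1 ≤ N → N + q.natDegree ≤ n + 1 →
    ∃ (D : ℕ) (φ e : ℕ → ES D) (f : Fin D → ℝ[X]), ONf φ (n + 1) ∧ ONf e N ∧
      (∀ y, (f y).natDegree ≤ n) ∧
      (∀ (t : ℝ) (y : Fin D), (f y).eval (Real.cos (π * t / N)) =
        (Kt p n N φ t - (q.eval (Real.cos (π * t / N)) * √(N / π)) • Vt ell e N t) y) ∧
      ∑ y, ∫ θ, (f y).eval (Real.cos θ) ^ 2 ∂μ ≤
        ((n : ℝ) + 1 - N) + 20 * N * ∫ θ in Set.Icc 0 π, (1 - ρ θ * q.eval (Real.cos θ)) ^ 2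

def RowCOUP : Prop :=
  ∀ (μ : Measure ℝ) (C₀ : ℝ) (s : ℕ) (p : ℕ → ℝ[X]) (ell : ℕ → ℕ → ℝ[X]), Dbl μ C₀ s → ONP μ p →
    μ ≪ volume → volume.restrict (Set.Icc 0 π) ≪ μ → Cheb ell →
    ∀ ε : ℝ, 0 < ε → ∃ d : ℕ, ∀ᶠ n : ℕ in atTop, ∀ N : ℕ, N + d = n + 1 →
      ∃ (D : ℕ) (φ e : ℕ → ES D) (Bad : Finset ℕ), ONf φ (n + 1) ∧ ONf e N ∧
        (Bad.card : ℝ) ≤ ε * n ∧ ∀ j < N, j ∉ Bad → ∃ c : ℝ → ℝ,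
          (∀ t ∈ Set.Icc (j : ℝ) (j + 1), ∀ t' ∈ Set.Icc (j : ℝ) (j + 1), 0 < c t * c t') ∧
          ∀ t ∈ Set.Icc (j : ℝ) (j + 1), ‖c t • Kt p n N φ t - Vt ell e N t‖ ^ 2 ≤ ε

structure RowMOD : Prop where
  low : ∀ (D B b : ℕ) (e : ℕ → ES D) (t : ℝ), ONf e ((b + 1) * B) → 0 < B → 0 ≤ t → t ≤ B →
    1 / 2 ≤ ‖Vb e B b t‖
  near : ∀ (ell : ℕ → ℕ → ℝ[X]) (D N B b : ℕ) (e : ℕ → ES D) (t R J : ℝ), Cheb ell → ONf e N →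
    (b + 1) * B ≤ N → 1 ≤ R → 0 < J → b * B + R ≤ t → t + R ≤ (b + 1) * B → J ≤ t → t + J ≤ N →
    ‖Vt ell e N t - Vb e B b (t - b * B)‖ ^ 2 ≤ 9 * B / J ^ 2 + 4 / R
  db : ∀ l : ℕ, ∃ (R₀ : ℕ) (Cm : ℝ), 0 ≤ Cm ∧ ∀ (R D B m : ℕ) (e : ℕ → ES D) (J : Finset (ℕ × ℕ)),
    R₀ ≤ R → ONf e (m * B) →
    (∀ x ∈ J, x.1 < m * B ∧ R ≤ x.1 % B ∧ x.1 % B + R < B ∧ x.2 < 2 ^ l) →
    DB2 J (fun x => Vb e B (x.1 / B) ((x.1 % B : ℕ) + x.2 / 2 ^ l))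
      (fun x => Vb e B (x.1 / B) ((x.1 % B : ℕ) + (x.2 + 1) / 2 ^ l)) Cm

def RowPOS : Prop :=
  ∃ (c₀ : ℝ) (l₁ : ℕ), 0 < c₀ ∧ ∀ l, l₁ ≤ l → ∃ R₁ : ℕ, ∀ R B : ℕ, R₁ ≤ R → 4 * R ≤ B →
    c₀ * B ≤ Var[Gm l R B; piG B]

def RowSTEPB : Prop :=
  ∀ (μ : Measure ℝ) (C₀ : ℝ) (s : ℕ) (p : ℕ → ℝ[X]), Dbl μ C₀ s → ONP μ p →
    μ ≪ volume → volume.restrict (Set.Icc 0 π) ≪ μ →
    ∀ (l : ℕ) (ε : ℝ), 0 < ε → ∃ R₀ : ℕ, ∀ R, R₀ ≤ R → ∃ B₀ : ℕ, ∀ B, B₀ ≤ B → ∃ d : ℕ,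
      ∀ᶠ n : ℕ in atTop, ∀ N : ℕ, N + d = n + 1 →
        ∃ (D : ℕ) (φ e : ℕ → ES D), ONf φ (n + 1) ∧ ONf e N ∧
          Var[fun W => Sl (Kt p n N φ) N l W -
            ∑ b ∈ Finset.range (N / B), Gm l R B (blk e B b W); gam D] ≤ ε * n

/-- the result in the angular variable -/
def RowCORE : Prop :=
  ∃ c : ℝ, 0 < c ∧ ∀ (μ : Measure ℝ) (C₀ : ℝ) (s : ℕ) (p : ℕ → ℝ[X]), Dbl μ C₀ s → ONP μ p →
    μ ≪ volume → volume.restrict (Set.Icc 0 π) ≪ μ →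
    Tendsto (fun n : ℕ => Var[cnt p n; piG (n + 1)] / n) atTop (𝓝 c) ∧
    ∀ t : ℝ, Tendsto (fun n : ℕ => charFun ((piG (n + 1)).map fun x =>
      (cnt p n x - ∫ y, cnt p n y ∂piG (n + 1)) / √(Var[cnt p n; piG (n + 1)])) t) atTop
      (𝓝 (Complex.exp (-(t : ℂ) ^ 2 / 2)))

/-- reduction to the angular variable -/
def RowRED : Prop :=
  ∀ (ν : Measure ℝ) (α β : ℝ) (L : NNReal) (p : ℕ → ℝ[X]), α < β → IsFiniteMeasure ν →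
    ν ≪ volume → ν (Set.Icc α β)ᶜ = 0 → volume.restrict (Set.Icc α β) ≪ ν →
    (∀ x ∈ Set.Icc α β, ∀ r : ℝ, 0 < r → ν (Metric.ball x (2 * r)) ≤ L * ν (Metric.ball x r)) →
    (∀ k, (p k).natDegree = k) →
    (∀ j k, ∫ x, (p j).eval x * (p k).eval x ∂ν = if j = k then (1 : ℝ) else 0) →
    ∃ (μ : Measure ℝ) (C₀ : ℝ) (s : ℕ) (p' : ℕ → ℝ[X]), Dbl μ C₀ s ∧ ONP μ p' ∧ μ ≪ volume ∧
      volume.restrict (Set.Icc 0 π) ≪ μ ∧ ∀ n c, cnt p' n c = cnt p n c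

def OfTHIN : Prop := RowSB → RowIND → RowTHIN
def OfWH : Prop := RowMZ → RowPEAK → RowWH
def OfTEL : Prop := RowBV → RowSB → RowTEL
def OfMIS : Prop := RowSB → RowMIS
def OfOUT : Prop := RowSB → RowMZ → RowOUT0 → RowOUT
def OfSTEPA : Prop := RowWH → RowTEL → RowMIS → RowOUT → RowSTEPA
def OfCHEB : Prop := RowSINC → RowCHEB
def OfCOUP : Prop := RowMZ → RowDENS → RowCOUP0 → RowCOUP
def OfMOD : Prop := RowSINC → RowMOD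
def OfPOS : Prop := RowIND → RowTHIN → RowSINC → RowMOD → RowPOS
def OfSTEPB : Prop :=
  RowBV → RowCMP → RowIND → RowWH → RowCHEB → RowCOUP → RowMOD → RowSTEPB
def OfCORE : Prop := RowIND → RowPOS → RowSTEPA → RowSTEPB → RowCORE

end

end Pool.Agent.MP_f6b137_pr.H74
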